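import Mathlib

/-!
Values of rational functions.
-/

set_option autoImplicit false

namespace Pool.Agent.Run7.h652.FB

open Polynomial

variable {K : Type} [Field K]

/-- The rational function `f` is regular at `a` and has there the value `v`. -/
def Val (a : K) (f : RatFunc K) (v : K) : Prop :=
  ∃ P Q : K[X], Q.eval a ≠ 0 ∧
    f * algebraMap K[X] (RatFunc K) Q = algebraMap K[X] (RatFunc K) P ∧ P.eval a = v * Q.eval a

variable {a : K} {f g : RatFunc K} {v w : K}

theorem Val.unique (h : Val a f v) (h' : Val a f w) : v = w := by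
  obtain ⟨P, Q, hQ, hPQ, hv⟩ := h
  obtain ⟨P', Q', hQ', hPQ', hw⟩ := h'
  have h1 : P * Q' = P' * Q := by
    apply RatFunc.algebraMap_injective K
    rw [map_mul, map_mul, ← hPQ, ← hPQ']
    ring
  have h2 := congrArg (eval a) h1
  rw [eval_mul, eval_mul, hv, hw] at h2
  have h3 : (v - w) * (Q.eval a * Q'.eval a) = 0 := by linear_combination h2
  rcases mul_eq_zero.1 h3 with h | h
  · exact sub_eq_zero.1 h
  · exact absurd h (mul_ne_zero hQ hQ')

theorem Val.poly (P : K[X]) : Val a (algebraMap K[X] (RatFunc K) P) (P.eval a) :=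
  ⟨P, 1, by simp, by simp, by simp⟩

theorem Val.const (c : K) : Val a (RatFunc.C c) c := by
  have h := Val.poly (a := a) (C c)
  rw [RatFunc.algebraMap_C, eval_C] at h
  exact h

theorem Val.mul (h : Val a f v) (h' : Val a g w) : Val a (f * g) (v * w) := by
  obtain ⟨P, Q, hQ, hPQ, hv⟩ := h
  obtain ⟨P', Q', hQ', hPQ', hw⟩ := h'
  refine ⟨P * P', Q * Q', ?_, ?_, ?_⟩
  · rw [eval_mul]; exact mul_ne_zero hQ hQ'
  · rw [map_mul, map_mul, ← hPQ, ← hPQ']; ring
  · rw [eval_mul, eval_mul, hv, hw]; ring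

theorem Val.add (h : Val a f v) (h' : Val a g w) : Val a (f + g) (v + w) := by
  obtain ⟨P, Q, hQ, hPQ, hv⟩ := h
  obtain ⟨P', Q', hQ', hPQ', hw⟩ := h'
  refine ⟨P * Q' + P' * Q, Q * Q', ?_, ?_, ?_⟩
  · rw [eval_mul]; exact mul_ne_zero hQ hQ'
  · rw [map_mul, map_add, map_mul, map_mul, ← hPQ, ← hPQ']; ring
  · rw [eval_mul, eval_add, eval_mul, eval_mul, hv, hw]; ring

theorem Val.pow (h : Val a f v) (n : ℕ) : Val a (f ^ n) (v ^ n) := by
  induction n with
  | zero =>
    rw [pow_zero, pow_zero]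
    have h1 := Val.const (a := a) (1 : K)
    rwa [map_one] at h1
  | succ n ih => rw [pow_succ, pow_succ]; exact ih.mul h

theorem Val.zero : Val a (0 : RatFunc K) 0 := by
  have h := Val.const (a := a) (0 : K)
  rwa [map_zero] at h

theorem Val.ne_zero (h : Val a f v) (hv : v ≠ 0) : f ≠ 0 := by
  rintro rfl
  exact hv (h.unique Val.zero)

theorem Val.inv (h : Val a f v) (hv : v ≠ 0) : Val a f⁻¹ v⁻¹ := by
  have hf := h.ne_zero hv
  obtain ⟨P, Q, hQ, hPQ, hv'⟩ := h
  refine ⟨Q, P, ?_, ?_, ?_⟩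
  · rw [hv']; exact mul_ne_zero hv hQ
  · rw [← hPQ, ← mul_assoc, inv_mul_cancel₀ hf, one_mul]
  · rw [hv', ← mul_assoc, inv_mul_cancel₀ hv, one_mul]

/-- Regular functions. -/
def Reg (a : K) (f : RatFunc K) : Prop := ∃ v, Val a f v

theorem Reg.add (h : Reg a f) (h' : Reg a g) : Reg a (f + g) :=
  ⟨_, h.choose_spec.add h'.choose_spec⟩

theorem Reg.mul (h : Reg a f) (h' : Reg a g) : Reg a (f * g) :=
  ⟨_, h.choose_spec.mul h'.choose_spec⟩

theorem Reg.sum {ι : Type} (s : Finset ι) (F : ι → RatFunc K) (h : ∀ i ∈ s, Reg a (F i)) :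
    Reg a (∑ i ∈ s, F i) := by
  classical
  induction s using Finset.induction_on with
  | empty => rw [Finset.sum_empty]; exact ⟨0, Val.zero⟩
  | insert i s hi ih =>
    rw [Finset.sum_insert hi]
    exact (h i (Finset.mem_insert_self i s)).add
      (ih fun j hj => h j (Finset.mem_insert_of_mem hj))

/-- The quotient of two polynomials, one of which has the least order of vanishing at `a`. -/
theorem reg_div {p q : K[X]} (hq : q ≠ 0) (h : p ≠ 0 → q.rootMultiplicity a ≤ p.rootMultiplicity a) :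
    Reg a (algebraMap K[X] (RatFunc K) p / algebraMap K[X] (RatFunc K) q) := by
  obtain ⟨q', hq', hq2⟩ := exists_eq_pow_rootMultiplicity_mul_and_not_dvd q hq a
  have hq3 : q'.eval a ≠ 0 := fun h0 => hq2 (dvd_iff_isRoot.2 h0)
  have h1 : (X - C a) ^ q.rootMultiplicity a ∣ p := by
    by_cases hp : p = 0
    · rw [hp]; exact dvd_zero _
    · exact (pow_dvd_pow _ (h hp)).trans (pow_rootMultiplicity_dvd p a)
  obtain ⟨p', hp'⟩ := h1
  refine ⟨p'.eval a / q'.eval a, p', q', hq3, ?_, ?_⟩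
  · have h2 : algebraMap K[X] (RatFunc K) q ≠ 0 := by
      rwa [Ne, FaithfulSMul.algebraMap_eq_zero_iff]
    rw [div_mul_eq_mul_div, div_eq_iff h2, ← map_mul, ← map_mul]
    congr 1
    conv_lhs => rw [hp']
    conv_rhs => rw [hq']
    ring
  · rw [div_mul_cancel₀ _ hq3]

/-- A polynomial over the rational functions whose values at the constants are regular. -/
theorem reg_coeff [Infinite K] (P : (RatFunc K)[X]) (h : ∀ τ : K, Reg a (P.eval (RatFunc.C τ)))
    (i : ℕ) : Reg a (P.coeff i) := by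
  classical
  obtain ⟨s, hs⟩ := Infinite.exists_subset_card_eq K (P.natDegree + 1)
  have hinj : Function.Injective (RatFunc.C : K →+* RatFunc K) := (RatFunc.C : K →+* RatFunc K).injective
  have h1 := Lagrange.eq_interpolate (s := s) (v := fun τ : K => RatFunc.C τ) (f := P)
    (hinj.injOn) (by
      rw [hs]
      exact (degree_le_natDegree).trans_lt (by exact_mod_cast Nat.lt_succ_self _))
  have h2 : ∀ τ ∈ s, Lagrange.basis s (fun τ : K => RatFunc.C τ) τ
      = (Lagrange.basis s (id : K → K) τ).map RatFunc.C := by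
    intro τ _
    unfold Lagrange.basis
    rw [Polynomial.map_prod]
    refine Finset.prod_congr rfl fun σ _ => ?_
    unfold Lagrange.basisDivisor
    simp
  rw [h1, Lagrange.interpolate_apply, finsetSum_coeff]
  refine Reg.sum _ _ fun τ hτ => ?_
  rw [coeff_C_mul, h2 τ hτ, coeff_map]
  exact (h τ).mul ⟨_, Val.const _⟩

/-- A common denominator. -/
theorem reg_common {ι : Type} (s : Finset ι) (F : ι → RatFunc K) (h : ∀ i ∈ s, Reg a (F i)) :
    ∃ q : K[X], q.eval a ≠ 0 ∧ ∀ i ∈ s, ∃ p : K[X],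
      F i * algebraMap K[X] (RatFunc K) q = algebraMap K[X] (RatFunc K) p := by
  classical
  induction s using Finset.induction_on with
  | empty => exact ⟨1, by simp, by simp⟩
  | insert i s hi ih =>
    obtain ⟨q, hq, hq2⟩ := ih fun j hj => h j (Finset.mem_insert_of_mem hj)
    obtain ⟨v, P, Q, hQ, hPQ, -⟩ := h i (Finset.mem_insert_self i s)
    refine ⟨q * Q, ?_, fun j hj => ?_⟩
    · rw [eval_mul]; exact mul_ne_zero hq hQ
    · rcases Finset.mem_insert.1 hj with rfl | hj
      · exact ⟨P * q, by rw [map_mul, map_mul, ← hPQ]; ring⟩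
      · obtain ⟨p, hp⟩ := hq2 j hj
        exact ⟨p * Q, by rw [map_mul, map_mul, ← hp]; ring⟩

end Pool.Agent.Run7.h652.FB
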