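import Mathlib
import Pool.Agent.Run7.h652.ZC.Cycle
import Pool.Agent.Run7.h652.FB.Val

/-!
# Chow groups of zero-cycles of a projective variety and of a family over it

Let `K` be an infinite field, `Ω` an algebraic closure of `K`, `g` a family of homogeneous
polynomials over `K` in the variables `τ`, and `W` the projective variety `g = 0`. Let `f` be a
family of polynomials in the variables `ι ⊕ τ` which are homogeneous in each of the two groups of
variables. The equations `f(x, w) = 0`, `g(w) = 0` define a subvariety `V` of the product of the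
projective space with the coordinates `ι` and of `W`; it is a family of projective varieties over `W`.

The groups of zero-cycles of `W` and `V` are the free abelian groups on the closed points
(`Pool.Agent.Run7.h652.ZC.Cyc` and `Cyc₂` below). Rational equivalence is defined as in Fulton's
book, Proposition 1.6: it is generated by the differences of the fibres at `t = 0` and at `t = 1` of
the irreducible curves in `V × ℙ¹` which dominate `ℙ¹`. Such a curve is given by its generic point,
a point `s` of `V` with coordinates in a finite extension `E` of `K(t)`. The fibre at `t = a` is the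
effective zero-cycle `z` whose Chow form is the specialisation at `t = a` of the Chow form of `s`.
Here the Chow form of a point with the homogeneous coordinates `s` in a finite extension `E` of a
field `F` is the polynomial `u ↦ N_{E / F} (∑ uᵢ sᵢ)`; as `K` is infinite, it is enough to know its
values for `u` with coordinates in `K`; the Chow form of a sum is the product of the Chow forms, and
a Chow form is determined up to a factor which does not depend on `u`.
-/

set_option autoImplicit false

namespace Pool.Agent.Run7.h652.FB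

open MvPolynomial IntermediateField
open Pool.Agent.Run7.h652.ZC (Pt Conj ClosedPt Cyc push resField conjSetoid)

/-! ### Chow forms -/

/-- The Chow form over `F` of the point with the coordinates `s`, at `u`. -/
noncomputable def chow (F : Type) {L σ : Type} [Field F] [Field L] [Algebra F L] [Fintype σ]
    (s : σ → L) (u : σ → F) : F :=
  Algebra.norm F (∑ i, u i • s i)

/-- Up to a factor in the field of rational functions `K(t)` the Chow form over `K(t)` of the point
with the coordinates `s` is regular at `t = a` and has there the value `Φ`. -/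
def Special {K E σ : Type} [Field K] [Field E] [Algebra (RatFunc K) E] [Fintype σ] (a : K)
    (s : σ → E) (Φ : (σ → K) → K) : Prop :=
  ∃ h : RatFunc K, h ≠ 0 ∧ ∀ u : σ → K,
    Val a (h * chow (RatFunc K) s (fun i => RatFunc.C (u i))) (Φ u)

variable {K Ω ι τ κ μ : Type} [Field K] [Field Ω] [Algebra K Ω]

/-! ### The variety `W` -/

/-- A point of the projective variety `g = 0` over a finite extension `L` of `K` in `Ω`. -/
structure FPt (Ω : Type) [Field Ω] [Algebra K Ω] (g : μ → MvPolynomial τ K) where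
  L : IntermediateField K Ω
  fin : FiniteDimensional K L
  w : τ → L
  ne : w ≠ 0
  eq : ∀ k, aeval w (g k) = 0

namespace FPt

variable {g : μ → MvPolynomial τ K}

/-- The point over `Ω`. -/
def pt (P : FPt Ω g) : Pt Ω g :=
  ⟨fun i => (P.w i : Ω), fun h => P.ne (funext fun i => Subtype.ext (congr_fun h i)), fun k => by
    have h1 := congrArg (algebraMap P.L Ω) (P.eq k)
    rw [map_zero] at h1
    rw [← h1]
    exact aeval_algebraMap_apply Ω P.w (g k)⟩

/-- The push-forward of the point: `[L : K(w)]` times the closed point of `w`. -/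
noncomputable def cyc (P : FPt Ω g) : Cyc Ω g := push P.L P.pt

end FPt

/-- The zero-cycle `z` on `W` is the difference of the fibres at `t = 0` and at `t = 1` of the curve
in `W × ℙ¹` which is given by a point `s` over the finite extension `E` of `K(t)`. -/
def Fibres [Fintype τ] {g : μ → MvPolynomial τ K} (z : Cyc Ω g) : Prop :=
  ∃ (E : Type) (_ : Field E) (_ : Algebra (RatFunc K) E) (s : τ → E) (l m : List (FPt Ω g)),
    FiniteDimensional (RatFunc K) E ∧ s ≠ 0 ∧
    (∀ k, eval₂ ((algebraMap (RatFunc K) E).comp RatFunc.C) s (g k) = 0) ∧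
    Special 0 s (fun u => (l.map fun P => chow K P.w u).prod) ∧
    Special 1 s (fun u => (m.map fun P => chow K P.w u).prod) ∧
    z = (l.map FPt.cyc).sum - (m.map FPt.cyc).sum

/-- The zero-cycles on `W` which are rationally equivalent to zero. -/
noncomputable def RatW [Fintype τ] (Ω : Type) [Field Ω] [Algebra K Ω] (g : μ → MvPolynomial τ K) :
    AddSubgroup (Cyc Ω g) :=
  AddSubgroup.closure {z | Fibres z}

/-! ### The family `V` over `W` -/

/-- The points of `V` over `Ω`, given by the two vectors of homogeneous coordinates. -/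
def Pt₂ (Ω : Type) [Field Ω] [Algebra K Ω] (f : κ → MvPolynomial (ι ⊕ τ) K)
    (g : μ → MvPolynomial τ K) : Type :=
  {p : (ι → Ω) × (τ → Ω) // p.1 ≠ 0 ∧ p.2 ≠ 0 ∧ (∀ j, aeval (Sum.elim p.1 p.2) (f j) = 0) ∧
    ∀ k, aeval p.2 (g k) = 0}

variable {f : κ → MvPolynomial (ι ⊕ τ) K} {g : μ → MvPolynomial τ K}

/-- The image of a point in `W`. -/
def Pt₂.snd (p : Pt₂ Ω f g) : Pt Ω g := ⟨p.1.2, p.2.2.1, p.2.2.2.2⟩

/-- `p` and `q` give the same closed point. -/
def Conj₂ (p q : Pt₂ Ω f g) : Prop :=
  ∃ (σ : Ω ≃ₐ[K] Ω) (c d : Ω), c ≠ 0 ∧ d ≠ 0 ∧ (∀ i, q.1.1 i = c * σ (p.1.1 i)) ∧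
    ∀ i, q.1.2 i = d * σ (p.1.2 i)

theorem conj₂_equivalence : Equivalence (Conj₂ (Ω := Ω) (f := f) (g := g)) where
  refl p := ⟨AlgEquiv.refl, 1, 1, one_ne_zero, one_ne_zero, fun i => by rw [one_mul]; rfl,
    fun i => by rw [one_mul]; rfl⟩
  symm := by
    rintro p q ⟨σ, c, d, hc, hd, h, h'⟩
    refine ⟨σ.symm, σ.symm c⁻¹, σ.symm d⁻¹, ?_, ?_, fun i => ?_, fun i => ?_⟩
    · rw [Ne, EmbeddingLike.map_eq_zero_iff]
      exact inv_ne_zero hc
    · rw [Ne, EmbeddingLike.map_eq_zero_iff]
      exact inv_ne_zero hd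
    · rw [h i, ← map_mul, ← mul_assoc, inv_mul_cancel₀ hc, one_mul, AlgEquiv.symm_apply_apply]
    · rw [h' i, ← map_mul, ← mul_assoc, inv_mul_cancel₀ hd, one_mul, AlgEquiv.symm_apply_apply]
  trans := by
    rintro p q r ⟨σ, c, d, hc, hd, h, h'⟩ ⟨σ₂, c₂, d₂, hc₂, hd₂, h₂, h₂'⟩
    refine ⟨σ.trans σ₂, c₂ * σ₂ c, d₂ * σ₂ d, mul_ne_zero hc₂ ?_, mul_ne_zero hd₂ ?_,
      fun i => ?_, fun i => ?_⟩
    · rw [Ne, EmbeddingLike.map_eq_zero_iff]
      exact hc
    · rw [Ne, EmbeddingLike.map_eq_zero_iff]
      exact hd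
    · rw [h₂ i, h i, map_mul, mul_assoc]
      rfl
    · rw [h₂' i, h' i, map_mul, mul_assoc]
      rfl

/-- The equivalence relation `Conj₂`. -/
def conj₂Setoid (Ω : Type) [Field Ω] [Algebra K Ω] (f : κ → MvPolynomial (ι ⊕ τ) K)
    (g : μ → MvPolynomial τ K) : Setoid (Pt₂ Ω f g) :=
  ⟨Conj₂, conj₂_equivalence⟩

/-- The closed points of `V`. -/
def ClosedPt₂ (Ω : Type) [Field Ω] [Algebra K Ω] (f : κ → MvPolynomial (ι ⊕ τ) K)
    (g : μ → MvPolynomial τ K) : Type :=
  Quotient (conj₂Setoid Ω f g)

/-- The residue field of the closed point of `p`. -/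
def Pt₂.res (p : Pt₂ Ω f g) : IntermediateField K Ω := resField K p.1.1 ⊔ resField K p.1.2

/-- The zero-cycles on `V`. -/
abbrev Cyc₂ (Ω : Type) [Field Ω] [Algebra K Ω] (f : κ → MvPolynomial (ι ⊕ τ) K)
    (g : μ → MvPolynomial τ K) : Type :=
  ClosedPt₂ Ω f g →₀ ℤ

/-- The closed point of `p`. -/
def cl₂ (p : Pt₂ Ω f g) : ClosedPt₂ Ω f g := Quotient.mk (conj₂Setoid Ω f g) p

/-- The push-forward of a point `p` over the finite extension `L` of `K`: it is `[L : K(p)]` times
the closed point of `p`. -/
noncomputable def push₂ (L : IntermediateField K Ω) (p : Pt₂ Ω f g) : Cyc₂ Ω f g :=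
  Finsupp.single (cl₂ p) ((Module.finrank K L / Module.finrank K p.res : ℕ) : ℤ)

/-- A point of `V` over a finite extension `L` of `K` in `Ω`. -/
structure FPt₂ (Ω : Type) [Field Ω] [Algebra K Ω] (f : κ → MvPolynomial (ι ⊕ τ) K)
    (g : μ → MvPolynomial τ K) where
  L : IntermediateField K Ω
  fin : FiniteDimensional K L
  x : ι → L
  w : τ → L
  ne : x ≠ 0
  ne' : w ≠ 0
  eq : ∀ j, aeval (Sum.elim x w) (f j) = 0
  eq' : ∀ k, aeval w (g k) = 0

namespace FPt₂

/-- The point over `Ω`. -/
def pt (P : FPt₂ Ω f g) : Pt₂ Ω f g :=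
  ⟨(fun i => (P.x i : Ω), fun i => (P.w i : Ω)),
    fun h => P.ne (funext fun i => Subtype.ext (congr_fun h i)),
    fun h => P.ne' (funext fun i => Subtype.ext (congr_fun h i)), fun j => by
      have h1 := congrArg (algebraMap P.L Ω) (P.eq j)
      rw [map_zero, ← aeval_algebraMap_apply] at h1
      rw [← h1]
      congr 2
      funext i
      cases i <;> rfl, fun k => by
      have h1 := congrArg (algebraMap P.L Ω) (P.eq' k)
      rw [map_zero] at h1
      rw [← h1]
      exact aeval_algebraMap_apply Ω P.w (g k)⟩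

/-- The push-forward of the point. -/
noncomputable def cyc (P : FPt₂ Ω f g) : Cyc₂ Ω f g := push₂ P.L P.pt

/-- The Segre coordinates of the point. -/
def seg (P : FPt₂ Ω f g) (s : ι × τ) : P.L := P.x s.1 * P.w s.2

end FPt₂

/-- The zero-cycle `z` on `V` is the difference of the fibres at `t = 0` and at `t = 1` of the curve
in `V × ℙ¹` which is given by a point `(x, w)` over the finite extension `E` of `K(t)`. We use the
Segre coordinates. -/
def Fibres₂ [Fintype ι] [Fintype τ] (z : Cyc₂ Ω f g) : Prop :=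
  ∃ (E : Type) (_ : Field E) (_ : Algebra (RatFunc K) E) (x : ι → E) (w : τ → E)
    (l m : List (FPt₂ Ω f g)),
    FiniteDimensional (RatFunc K) E ∧ x ≠ 0 ∧ w ≠ 0 ∧
    (∀ j, eval₂ ((algebraMap (RatFunc K) E).comp RatFunc.C) (Sum.elim x w) (f j) = 0) ∧
    (∀ k, eval₂ ((algebraMap (RatFunc K) E).comp RatFunc.C) w (g k) = 0) ∧
    Special 0 (fun s : ι × τ => x s.1 * w s.2) (fun u => (l.map fun P => chow K P.seg u).prod) ∧
    Special 1 (fun s : ι × τ => x s.1 * w s.2) (fun u => (m.map fun P => chow K P.seg u).prod) ∧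
    z = (l.map FPt₂.cyc).sum - (m.map FPt₂.cyc).sum

/-- The zero-cycles on `V` which are rationally equivalent to zero. -/
noncomputable def RatV [Fintype ι] [Fintype τ] (Ω : Type) [Field Ω] [Algebra K Ω]
    (f : κ → MvPolynomial (ι ⊕ τ) K) (g : μ → MvPolynomial τ K) : AddSubgroup (Cyc₂ Ω f g) :=
  AddSubgroup.closure {z | Fibres₂ z}

/-! ### The projection -/

theorem Pt₂.finrank_res {p q : Pt₂ Ω f g} (σ : Ω ≃ₐ[K] Ω) (c d : Ω) (hc : c ≠ 0) (hd : d ≠ 0)
    (h : ∀ i, q.1.1 i = c * σ (p.1.1 i)) (h' : ∀ i, q.1.2 i = d * σ (p.1.2 i)) :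
    Module.finrank K q.res = Module.finrank K p.res := by
  unfold Pt₂.res
  rw [ZC.resField_conj σ c hc h, ZC.resField_conj σ d hd h', ← IntermediateField.map_sup,
    ZC.finrank_map]

/-- The image in `W` of a closed point `P` of `V`: it is `[K(P) : K(Q)]` times the image point `Q`. -/
noncomputable def ClosedPt₂.proj : ClosedPt₂ Ω f g → Cyc Ω g :=
  Quotient.lift (fun p => push p.res p.snd) fun p q h => by
    obtain ⟨σ, c, d, hc, hd, h, h'⟩ := h
    have h1 : Conj g p.snd q.snd := ⟨σ, d, hd, h'⟩
    have h2 : (Quotient.mk (conjSetoid Ω g) p.snd) = Quotient.mk (conjSetoid Ω g) q.snd :=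
      Quotient.sound h1
    have h3 := ZC.finrank_resField_conj σ d hd h'
    show Finsupp.single (Quotient.mk (conjSetoid Ω g) p.snd)
        ((Module.finrank K p.res / Module.finrank K (resField K p.1.2) : ℕ) : ℤ)
      = Finsupp.single (Quotient.mk (conjSetoid Ω g) q.snd)
        ((Module.finrank K q.res / Module.finrank K (resField K q.1.2) : ℕ) : ℤ)
    rw [Pt₂.finrank_res σ c d hc hd h h', h2, h3]

/-- The push-forward of zero-cycles from `V` to `W`. -/
noncomputable def proj : Cyc₂ Ω f g →+ Cyc Ω g :=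
  Finsupp.liftAddHom fun P => zmultiplesHom _ P.proj

end Pool.Agent.Run7.h652.FB
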