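import Mathlib

/-!
The norm of a finite algebra over a field is a product of norms of residue fields.
-/

set_option autoImplicit false
set_option linter.style.haveILetI false

namespace Pool.Agent.Run7.h652.FB

open Module

variable {K Ω C : Type} [Field K] [Field Ω] [Algebra K Ω] [IsAlgClosed Ω]
  [CommRing C] [Algebra K C]

theorem residues_aux : ∀ (n : ℕ) (Q : Type) [AddCommGroup Q] [Module K Q] [Module C Q]
    [IsScalarTower K C Q] [FiniteDimensional K Q], finrank K Q = n →
    ∃ l : List (Σ L : IntermediateField K Ω, C →ₐ[K] L), (∀ P ∈ l, FiniteDimensional K P.1) ∧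
      ∀ c : C, LinearMap.det (Algebra.lsmul K K Q c) = (l.map fun P => Algebra.norm K (P.2 c)).prod := by
  intro n
  induction n using Nat.strong_induction_on with
  | _ n ih =>
    intro Q _ _ _ _ _ hn
    rcases Nat.eq_zero_or_pos n with h0 | h0
    · subst h0
      refine ⟨[], by simp, fun c => ?_⟩
      have : Subsingleton Q := finrank_zero_iff.1 hn
      simp [LinearMap.det_eq_one_of_subsingleton]
    · have hnt : Nontrivial Q := finrank_pos_iff.1 (hn ▸ h0)
      have hart : IsArtinian C Q := isArtinian_of_tower K (inferInstance : IsArtinian K Q)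
      obtain ⟨S, hS, -⟩ := (IsAtomic.eq_bot_or_exists_atom_le (⊤ : Submodule C Q)).resolve_left
        top_ne_bot
      have hsimp : IsSimpleModule C S := isSimpleModule_iff_isAtom.2 hS
      obtain ⟨I, hI, ⟨e⟩⟩ := isSimpleModule_iff_quot_maximal.1 hsimp
      letI : Field (C ⧸ I) := Ideal.Quotient.field I
      have hfS : FiniteDimensional K S :=
        inferInstanceAs (FiniteDimensional K (S.restrictScalars K))
      let eK : (S.restrictScalars K) ≃ₗ[K] (C ⧸ I) := e.restrictScalars K
      have hfI : FiniteDimensional K (C ⧸ I) := LinearEquiv.finiteDimensional eK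
      let σ : (C ⧸ I) →ₐ[K] Ω := IsAlgClosed.lift
      let f : (C ⧸ I) ≃ₐ[K] σ.fieldRange := AlgEquiv.ofInjective σ σ.toRingHom.injective
      have hfq : finrank K (Q ⧸ S) < n := by
        have h1 := Submodule.finrank_quotient_add_finrank (S.restrictScalars K)
        have h2 : finrank K (Q ⧸ S) = finrank K (Q ⧸ S.restrictScalars K) :=
          (LinearEquiv.finrank_eq (Submodule.Quotient.restrictScalarsEquiv K S)).symm
        have h3 : 0 < finrank K (S.restrictScalars K) := by
          have h4 : Nontrivial S := IsSimpleModule.nontrivial C S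
          have h5 : Nontrivial (S.restrictScalars K) := h4
          exact finrank_pos
        rw [h2, ← hn]
        omega
      obtain ⟨l, hl, hl2⟩ := ih _ hfq (Q ⧸ S) rfl
      refine ⟨⟨σ.fieldRange, (f : (C ⧸ I) →ₐ[K] σ.fieldRange).comp (Ideal.Quotient.mkₐ K I)⟩ :: l,
        ?_, fun c => ?_⟩
      · intro P hP
        rcases List.mem_cons.1 hP with rfl | hP
        · exact LinearEquiv.finiteDimensional f.toLinearEquiv
        · exact hl P hP
      · have hle : S.restrictScalars K ≤ (S.restrictScalars K).comap (Algebra.lsmul K K Q c) :=
          fun x hx => S.smul_mem c hx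
        have h1 := LinearMap.det_eq_det_mul_det (S.restrictScalars K) (Algebra.lsmul K K Q c) hle
        rw [h1, List.map_cons, List.prod_cons]
        congr 1
        · have h2 : LinearMap.det ((Algebra.lsmul K K Q c).restrict hle)
              = LinearMap.det (Algebra.lsmul K K (C ⧸ I) c) := by
            have h3 : Algebra.lsmul K K (C ⧸ I) c = (eK : (S.restrictScalars K) →ₗ[K] (C ⧸ I)) ∘ₗ
                ((Algebra.lsmul K K Q c).restrict hle) ∘ₗ
                (eK.symm : (C ⧸ I) →ₗ[K] (S.restrictScalars K)) := by
              ext x
              have h4 := e.map_smul c (e.symm x)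
              rw [e.apply_symm_apply] at h4
              exact h4.symm
            rw [h3]
            exact (LinearMap.det_conj ((Algebra.lsmul K K Q c).restrict hle) eK).symm
          rw [h2]
          have h5 : Algebra.lsmul K K (C ⧸ I) c
              = Algebra.lmul K (C ⧸ I) (Ideal.Quotient.mk I c) := by
            ext x
            rfl
          rw [h5]
          show Algebra.norm K (Ideal.Quotient.mk I c) = Algebra.norm K (f (Ideal.Quotient.mk I c))
          exact (Algebra.norm_eq_of_algEquiv f _).symm
        · rw [← hl2 c]
          have h6 : Algebra.lsmul K K (Q ⧸ S) c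
              = (Submodule.Quotient.restrictScalarsEquiv K S : _ →ₗ[K] (Q ⧸ S)) ∘ₗ
                ((S.restrictScalars K).mapQ (S.restrictScalars K) (Algebra.lsmul K K Q c) hle) ∘ₗ
                ((Submodule.Quotient.restrictScalarsEquiv K S).symm : (Q ⧸ S) →ₗ[K] _) := by
            refine LinearMap.ext fun x => ?_
            obtain ⟨x, rfl⟩ := Submodule.Quotient.mk_surjective S x
            rfl
          rw [h6]
          exact (LinearMap.det_conj _ (Submodule.Quotient.restrictScalarsEquiv K S)).symm

/-- The norm of a finite algebra is the product of the norms of residue fields. -/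
theorem exists_residues (Ω : Type) [Field Ω] [Algebra K Ω] [IsAlgClosed Ω]
    [FiniteDimensional K C] :
    ∃ l : List (Σ L : IntermediateField K Ω, C →ₐ[K] L), (∀ P ∈ l, FiniteDimensional K P.1) ∧
      ∀ c : C, Algebra.norm K c = (l.map fun P => Algebra.norm K (P.2 c)).prod :=
  residues_aux _ C rfl

end Pool.Agent.Run7.h652.FB
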