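import Mathlib
import Pool.Agent.Run7.h652.FB.Val

/-!
Coordinates which are integral and primitive at a place.
-/

set_option autoImplicit false

namespace Pool.Agent.Run7.h652.FB

open Polynomial Module

variable {K : Type} [Field K]

theorem isIntegral_of_reg {E : Type} [Field E] [Algebra K[X] E] [Algebra (RatFunc K) E]
    [IsScalarTower K[X] (RatFunc K) E] {a : K} (y : E) (χ : (RatFunc K)[X]) (hχ : χ.Monic)
    (hy : aeval y χ = 0) (hreg : ∀ i, Reg a (χ.coeff i)) :
    ∃ q : K[X], q.eval a ≠ 0 ∧ IsIntegral K[X] (algebraMap K[X] E q * y) := by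
  classical
  obtain ⟨q, hq, hq2⟩ := reg_common (Finset.range (χ.natDegree + 1)) χ.coeff fun i _ => hreg i
  refine ⟨q, hq, ?_⟩
  set Q : RatFunc K := algebraMap K[X] (RatFunc K) q with hQ
  have h1 : χ.scaleRoots Q ∈ lifts (algebraMap K[X] (RatFunc K)) := by
    rw [lifts_iff_coeff_lifts]
    intro i
    rw [coeff_scaleRoots]
    rcases lt_trichotomy i χ.natDegree with h | h | h
    · obtain ⟨p, hp⟩ := hq2 i (Finset.mem_range.2 (by omega))
      obtain ⟨k, hk⟩ : ∃ k, χ.natDegree - i = k + 1 := ⟨χ.natDegree - i - 1, by omega⟩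
      refine ⟨p * q ^ k, ?_⟩
      rw [hk, map_mul, map_pow, ← hp, pow_succ]
      ring
    · refine ⟨1, ?_⟩
      rw [h, Nat.sub_self, pow_zero, mul_one, map_one]
      exact hχ.symm
    · refine ⟨0, ?_⟩
      rw [coeff_eq_zero_of_natDegree_lt h, zero_mul, map_zero]
  have h2 : (χ.scaleRoots Q).Monic := (monic_scaleRoots_iff Q).2 hχ
  obtain ⟨P, hP, -, hPm⟩ := lifts_and_natDegree_eq_and_monic h1 h2
  refine ⟨P, hPm, ?_⟩
  have h3 := scaleRoots_aeval_eq_zero (r := Q) hy
  rw [← hP, aeval_def, eval₂_map, ← IsScalarTower.algebraMap_eq, hQ,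
    ← IsScalarTower.algebraMap_apply] at h3
  exact h3

/-- Good coordinates. -/
theorem exists_good [Infinite K] {E ι : Type} [Field E] [Algebra K[X] E] [Algebra (RatFunc K) E]
    [IsScalarTower K[X] (RatFunc K) E] [FiniteDimensional (RatFunc K) E] [Fintype ι] (a : K)
    (x : ι → E) (hx : x ≠ 0) :
    ∃ (θ : E) (c : ι → K) (q : K[X]), θ ≠ 0 ∧ q.eval a ≠ 0 ∧
      (∀ i, IsIntegral K[X] (θ * x i)) ∧
      ∑ i, RatFunc.C (c i) • (θ * x i) = algebraMap K[X] E q := by
  classical
  let lam : (ι → K) → E := fun u => ∑ i, RatFunc.C (u i) • x i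
  let N : (ι → K) → RatFunc K := fun u => Algebra.norm (RatFunc K) (lam u)
  have hlam : ∀ (τ : K) (u v : ι → K), lam (fun i => τ * u i - v i)
      = RatFunc.C τ • lam u - lam v := by
    intro τ u v
    show ∑ i, _ = _ • ∑ i, _ - ∑ i, _
    rw [Finset.smul_sum, ← Finset.sum_sub_distrib]
    refine Finset.sum_congr rfl fun i _ => ?_
    rw [map_sub, map_mul, sub_smul, mul_smul]
  have hlam1 : ∀ i, lam (Pi.single i 1) = x i := by
    intro i
    show ∑ j, _ = _
    rw [Finset.sum_eq_single i]
    · rw [Pi.single_eq_same, map_one, one_smul]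
    · intro j _ hj
      rw [Pi.single_eq_of_ne hj, map_zero, zero_smul]
    · intro h
      exact absurd (Finset.mem_univ i) h
  have halg : Algebra.IsAlgebraic K[X] E :=
    (IsFractionRing.comap_isAlgebraic_iff (A := K[X]) (K := RatFunc K) (C := E)).2 inferInstance
  obtain ⟨r, hr, hri⟩ := Algebra.IsAlgebraic.exists_integral_multiples K[X] (Finset.univ.image x)
  set m := finrank (RatFunc K) E with hm
  have hp : ∀ u, ∃ p : K[X], algebraMap K[X] (RatFunc K) p
      = algebraMap K[X] (RatFunc K) r ^ m * N u := by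
    intro u
    have h1 : IsIntegral K[X] (algebraMap K[X] E r * lam u) := by
      show IsIntegral K[X] (algebraMap K[X] E r * ∑ i, RatFunc.C (u i) • x i)
      rw [Finset.mul_sum]
      refine IsIntegral.sum _ fun i _ => ?_
      have h2 := hri (x i) (Finset.mem_image_of_mem x (Finset.mem_univ i))
      have h3 : algebraMap K[X] E r * RatFunc.C (u i) • x i
          = algebraMap K[X] E (C (u i)) * (r • x i) := by
        rw [Algebra.smul_def, Algebra.smul_def, ← RatFunc.algebraMap_C,
          ← IsScalarTower.algebraMap_apply]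
        ring
      rw [h3]
      exact isIntegral_algebraMap.mul h2
    have h4 : IsIntegral K[X] (Algebra.norm (RatFunc K) (algebraMap K[X] E r * lam u)) :=
      Algebra.isIntegral_norm (RatFunc K) h1
    obtain ⟨p, hp⟩ := IsIntegrallyClosed.isIntegral_iff.1 h4
    refine ⟨p, ?_⟩
    rw [hp, map_mul, IsScalarTower.algebraMap_apply K[X] (RatFunc K) E, Algebra.norm_algebraMap]
  choose p hp using hp
  have hr' : algebraMap K[X] (RatFunc K) r ^ m ≠ 0 := by
    apply pow_ne_zero
    rwa [Ne, FaithfulSMul.algebraMap_eq_zero_iff]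
  have hpN : ∀ u, p u ≠ 0 ↔ N u ≠ 0 := by
    intro u
    rw [← not_iff_not, not_not, not_not]
    constructor
    · intro h
      have h1 := hp u
      rw [h, map_zero] at h1
      exact (mul_eq_zero.1 h1.symm).resolve_left hr'
    · intro h
      have h1 := hp u
      rw [h, mul_zero, FaithfulSMul.algebraMap_eq_zero_iff] at h1
      exact h1
  have hex : ∃ n, ∃ u, p u ≠ 0 ∧ (p u).rootMultiplicity a = n := by
    obtain ⟨i, hi⟩ := Function.ne_iff.1 hx
    refine ⟨_, Pi.single i 1, ?_, rfl⟩
    rw [hpN]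
    show Algebra.norm (RatFunc K) (lam (Pi.single i 1)) ≠ 0
    rw [hlam1, Ne, Algebra.norm_eq_zero_iff]
    exact hi
  obtain ⟨c, hc, hc2⟩ := Nat.find_spec hex
  have hmin : ∀ u, p u ≠ 0 → (p c).rootMultiplicity a ≤ (p u).rootMultiplicity a := by
    intro u hu
    rw [hc2]
    exact Nat.find_min' hex ⟨u, hu, rfl⟩
  have hNc : N c ≠ 0 := (hpN c).1 hc
  have hlc : lam c ≠ 0 := by
    intro h
    apply hNc
    show Algebra.norm (RatFunc K) (lam c) = 0
    rw [h]
    exact Algebra.norm_zero
  have hregN : ∀ u, Reg a (N u / N c) := by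
    intro u
    have h1 : N u / N c = algebraMap K[X] (RatFunc K) (p u) / algebraMap K[X] (RatFunc K) (p c) := by
      rw [hp, hp, mul_div_mul_left _ _ hr']
    rw [h1]
    exact reg_div hc (hmin u)
  have hint : ∀ i, ∃ q : K[X], q.eval a ≠ 0 ∧
      IsIntegral K[X] (algebraMap K[X] E q * (x i / lam c)) := by
    intro i
    set y := x i / lam c with hy
    let χ := (Algebra.lmul (RatFunc K) E y).charpoly
    refine isIntegral_of_reg y χ (LinearMap.charpoly_monic _) ?_ (reg_coeff χ fun τ => ?_)
    · have h1 := LinearMap.aeval_self_charpoly (Algebra.lmul (RatFunc K) E y)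
      have h2 : aeval (Algebra.lmul (RatFunc K) E y) χ = Algebra.lmul (RatFunc K) E (aeval y χ) :=
        aeval_algHom_apply (Algebra.lmul (RatFunc K) E) y χ
      rw [h2] at h1
      have h3 := DFunLike.congr_fun h1 (1 : E)
      simpa using h3
    · have h1 : χ.eval (RatFunc.C τ) = N (fun j => τ * c j - (Pi.single i 1 : ι → K) j) / N c := by
        rw [LinearMap.eval_charpoly]
        have h2 : algebraMap (RatFunc K) (E →ₗ[RatFunc K] E) (RatFunc.C τ)
            - Algebra.lmul (RatFunc K) E y
            = Algebra.lmul (RatFunc K) E (algebraMap (RatFunc K) E (RatFunc.C τ) - y) := by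
          rw [map_sub, AlgHom.commutes]
        have h3 : algebraMap (RatFunc K) E (RatFunc.C τ) - y
            = lam (fun j => τ * c j - (Pi.single i 1 : ι → K) j) / lam c := by
          rw [hlam, hlam1, sub_div, Algebra.smul_def, mul_div_cancel_right₀ _ hlc]
        rw [h2, h3, eq_div_iff hNc]
        show Algebra.norm (RatFunc K) _ * Algebra.norm (RatFunc K) _ = _
        rw [← map_mul, div_mul_cancel₀ _ hlc]
      rw [h1]
      exact hregN _
  choose q hq hqi using hint
  refine ⟨algebraMap K[X] E (∏ i, q i) / lam c, c, ∏ i, q i, ?_, ?_, fun i => ?_, ?_⟩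
  · refine div_ne_zero ?_ hlc
    have hinj : Function.Injective (algebraMap K[X] E) := by
      rw [IsScalarTower.algebraMap_eq K[X] (RatFunc K) E]
      exact (algebraMap (RatFunc K) E).injective.comp (RatFunc.algebraMap_injective K)
    rw [Ne, map_eq_zero_iff _ hinj]
    intro h
    obtain ⟨i, -, hi⟩ := Finset.prod_eq_zero_iff.1 h
    apply hq i
    rw [hi, eval_zero]
  · rw [eval_prod]
    exact Finset.prod_ne_zero_iff.2 fun i _ => hq i
  · have h1 : algebraMap K[X] E (∏ i, q i) / lam c * x i
        = algebraMap K[X] E (∏ j ∈ Finset.univ.erase i, q j)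
          * (algebraMap K[X] E (q i) * (x i / lam c)) := by
      rw [← Finset.prod_erase_mul _ _ (Finset.mem_univ i), map_mul]
      ring
    rw [h1]
    exact isIntegral_algebraMap.mul (hqi i)
  · have h1 : ∀ i, RatFunc.C (c i) • (algebraMap K[X] E (∏ i, q i) / lam c * x i)
        = algebraMap K[X] E (∏ i, q i) / lam c * (RatFunc.C (c i) • x i) := by
      intro i
      rw [Algebra.smul_def, Algebra.smul_def]
      ring
    rw [Finset.sum_congr rfl fun i _ => h1 i, ← Finset.mul_sum]
    exact div_mul_cancel₀ _ hlc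

end Pool.Agent.Run7.h652.FB
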