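import Mathlib
import Pool.Agent.Run7.h652.FB.Good
import Pool.Agent.Run7.h652.FB.Art

/-!
Orders in finite extensions of the field of rational functions, and their reductions.
-/

set_option autoImplicit false
set_option linter.style.haveILetI false

namespace Pool.Agent.Run7.h652.FB

open Polynomial Module
open scoped TensorProduct nonZeroDivisors

variable {K : Type} [Field K] {E : Type} [Field E] [Algebra K[X] E] [Algebra (RatFunc K) E]
    [IsScalarTower K[X] (RatFunc K) E]

theorem exists_order [FiniteDimensional (RatFunc K) E] (Y : Finset E)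
    (hY : ∀ y ∈ Y, IsIntegral K[X] y) :
    ∃ B : Subalgebra K[X] E, (∀ y ∈ Y, y ∈ B) ∧ Module.Finite K[X] B ∧ Module.Free K[X] B ∧
      ∀ b : B, Algebra.norm (RatFunc K) (b : E)
        = algebraMap K[X] (RatFunc K) (Algebra.norm K[X] b) := by
  classical
  have halg : Algebra.IsAlgebraic K[X] E :=
    (IsFractionRing.comap_isAlgebraic_iff (A := K[X]) (K := RatFunc K) (C := E)).2 inferInstance
  have hinj : Function.Injective (algebraMap K[X] E) := by
    rw [IsScalarTower.algebraMap_eq K[X] (RatFunc K) E]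
    exact (algebraMap (RatFunc K) E).injective.comp (RatFunc.algebraMap_injective K)
  let bas := Module.finBasis (RatFunc K) E
  obtain ⟨r, hr, hri⟩ := Algebra.IsAlgebraic.exists_integral_multiples K[X]
    (Finset.univ.image bas)
  let s : Finset E := Y ∪ Finset.univ.image fun k => r • bas k
  let B : Subalgebra K[X] E := Algebra.adjoin K[X] (s : Set E)
  have hfg : (Subalgebra.toSubmodule B).FG := by
    refine fg_adjoin_of_finite s.finite_toSet fun x hx => ?_
    rcases Finset.mem_union.1 (Finset.mem_coe.1 hx) with h | h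
    · exact hY x h
    · obtain ⟨k, -, rfl⟩ := Finset.mem_image.1 h
      exact hri _ (Finset.mem_image_of_mem _ (Finset.mem_univ k))
  have hfin : Module.Finite K[X] B := Module.Finite.iff_fg.2 hfg
  have htf : Module.IsTorsionFree K[X] E := Module.isTorsionFree_iff_algebraMap_injective.2 hinj
  have hfree : Module.Free K[X] B := inferInstance
  have hloc : IsLocalization (Algebra.algebraMapSubmonoid B K[X]⁰) E := by
    refine ⟨?_, ?_, ?_⟩
    · rintro ⟨_, q, hq, rfl⟩
      have h1 : algebraMap B E (algebraMap K[X] B q) = algebraMap K[X] E q := rfl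
      show IsUnit (algebraMap B E (algebraMap K[X] B q))
      rw [h1, isUnit_iff_ne_zero, Ne, map_eq_zero_iff _ hinj]
      exact nonZeroDivisors.ne_zero hq
    · intro z
      obtain ⟨q, hq⟩ := IsLocalization.exist_integer_multiples K[X]⁰ Finset.univ (bas.repr z)
      have h1 : algebraMap K[X] E (q * r) * z ∈ B := by
        have h2 : algebraMap K[X] E (q * r) * z
            = ∑ k, ((q : K[X]) • bas.repr z k) • (r • bas k) := by
          conv_lhs => rw [← bas.sum_repr z, Finset.mul_sum]
          refine Finset.sum_congr rfl fun k _ => ?_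
          have h3 : (q : K[X]) • bas.repr z k = algebraMap K[X] (RatFunc K) q * bas.repr z k :=
            Algebra.smul_def _ _
          rw [h3, Algebra.smul_def, Algebra.smul_def, Algebra.smul_def, map_mul, map_mul,
            ← IsScalarTower.algebraMap_apply]
          ring
        rw [h2]
        refine sum_mem fun k _ => ?_
        obtain ⟨p, hp⟩ := hq k (Finset.mem_univ k)
        rw [← hp, algebraMap_smul]
        refine Subalgebra.smul_mem _ (Algebra.subset_adjoin ?_) _
        exact Finset.mem_coe.2 (Finset.mem_union_right _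
          (Finset.mem_image_of_mem _ (Finset.mem_univ k)))
      refine ⟨(⟨_, h1⟩, ⟨algebraMap K[X] B (q * r), q * r, ?_, rfl⟩), ?_⟩
      · exact mul_mem q.2 (mem_nonZeroDivisors_of_ne_zero hr)
      · rw [mul_comm]
        rfl
    · intro x y hxy
      exact ⟨1, by rw [Subtype.coe_injective hxy]⟩
  refine ⟨B, fun y hy => Algebra.subset_adjoin (Finset.mem_coe.2 (Finset.mem_union_left _ hy)),
    hfin, hfree, fun b => ?_⟩
  exact Algebra.norm_localization K[X] K[X]⁰ b

omit [Algebra (RatFunc K) E] [IsScalarTower K[X] (RatFunc K) E] in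
theorem exists_places (Ω : Type) [Field Ω] [Algebra K Ω] [IsAlgClosed Ω] (a : K)
    (B : Subalgebra K[X] E) [Module.Finite K[X] B] [Module.Free K[X] B] :
    ∃ l : List (Σ L : IntermediateField K Ω, B →+* L),
      (∀ P ∈ l, FiniteDimensional K P.1 ∧
        ∀ p : K[X], P.2 (algebraMap K[X] B p) = algebraMap K P.1 (p.eval a)) ∧
      ∀ b : B, (Algebra.norm K[X] b).eval a = (l.map fun P => Algebra.norm K (P.2 b)).prod := by
  letI : Algebra K[X] K := (evalRingHom a).toAlgebra
  have hev : ∀ p : K[X], algebraMap K[X] K p = p.eval a := fun p => rfl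
  obtain ⟨l, hl, hl2⟩ := exists_residues (K := K) (C := K ⊗[K[X]] B) Ω
  let inc : B →+* K ⊗[K[X]] B := (Algebra.TensorProduct.includeRight : B →ₐ[K[X]] K ⊗[K[X]] B)
  have hinc : ∀ p : K[X], inc (algebraMap K[X] B p)
      = algebraMap K (K ⊗[K[X]] B) (p.eval a) := by
    intro p
    show (1 : K) ⊗ₜ[K[X]] (algebraMap K[X] B p) = (p.eval a) ⊗ₜ[K[X]] 1
    rw [Algebra.algebraMap_eq_smul_one, ← TensorProduct.smul_tmul, Algebra.smul_def, mul_one, hev]
  refine ⟨l.map fun P => ⟨P.1, (P.2 : K ⊗[K[X]] B →+* P.1).comp inc⟩, ?_, fun b => ?_⟩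
  · intro P hP
    obtain ⟨Q, hQ, rfl⟩ := List.mem_map.1 hP
    refine ⟨hl Q hQ, fun p => ?_⟩
    show Q.2 (inc (algebraMap K[X] B p)) = _
    rw [hinc, AlgHom.commutes]
  · rw [List.map_map]
    have h1 : (Algebra.norm K[X] b).eval a = Algebra.norm K (inc b) := by
      rw [← hev, Algebra.norm_apply, Algebra.norm_apply, ← LinearMap.det_baseChange]
      congr 1
      ext x
      show (1 : K) ⊗ₜ[K[X]] (b * x) = ((1 : K) ⊗ₜ[K[X]] b) * ((1 : K) ⊗ₜ[K[X]] x)
      rw [Algebra.TensorProduct.tmul_mul_tmul, mul_one]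
    rw [h1, hl2]
    rfl

end Pool.Agent.Run7.h652.FB
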