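import Mathlib
import Pool.Agent.Run7.h652.FB.Defs
import Pool.Agent.Run7.h652.FB.Order

/-!
Existence of the fibre of a curve at a place.
-/

set_option autoImplicit false
set_option linter.style.haveILetI false

namespace Pool.Agent.Run7.h652.FB

open MvPolynomial

/-- `f(x, w)` is homogeneous of degree `a` in `x` and of degree `b` in `w`. -/
def BiHom {ι τ K : Type} [Field K] (f : MvPolynomial (ι ⊕ τ) K) (a b : ℕ) : Prop :=
  IsWeightedHomogeneous (Sum.elim (fun _ => 1) fun _ => 0 : ι ⊕ τ → ℕ) f a ∧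
    IsWeightedHomogeneous (Sum.elim (fun _ => 0) fun _ => 1 : ι ⊕ τ → ℕ) f b

theorem wh_scale {σ R A : Type} [CommRing R] [CommRing A] (φ : R →+* A) {wt : σ → ℕ} {n : ℕ}
    {f : MvPolynomial σ R} (hf : f.IsWeightedHomogeneous wt n) (c : A) (v : σ → A) :
    eval₂ φ (fun i => c ^ wt i * v i) f = c ^ n * eval₂ φ v f := by
  rw [eval₂_eq, eval₂_eq, Finset.mul_sum]
  refine Finset.sum_congr rfl fun s hs => ?_
  have h1 := hf (mem_support_iff.1 hs)
  rw [Finsupp.weight_apply] at h1
  have h2 : ∏ i ∈ s.support, (c ^ wt i * v i) ^ s i = c ^ n * ∏ i ∈ s.support, v i ^ s i := by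
    rw [← h1, Finsupp.sum, ← Finset.prod_pow_eq_pow_sum, ← Finset.prod_mul_distrib]
    refine Finset.prod_congr rfl fun i _ => ?_
    rw [mul_pow, ← pow_mul, smul_eq_mul, mul_comm (wt i)]
  rw [h2]
  ring

theorem BiHom.scale {ι τ K A : Type} [Field K] [CommRing A] (φ : K →+* A)
    {f : MvPolynomial (ι ⊕ τ) K} {a b : ℕ} (hf : BiHom f a b) (c d : A) (x : ι → A) (w : τ → A) :
    eval₂ φ (Sum.elim (fun i => c * x i) fun i => d * w i) f
      = c ^ a * d ^ b * eval₂ φ (Sum.elim x w) f := by
  have h1 := wh_scale φ hf.1 c (Sum.elim x fun i => d * w i)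
  have h2 := wh_scale φ hf.2 d (Sum.elim x w)
  have h3 : (fun i => c ^ (Sum.elim (fun _ => 1) fun _ => 0 : ι ⊕ τ → ℕ) i *
      (Sum.elim x fun i => d * w i : ι ⊕ τ → A) i) = Sum.elim (fun i => c * x i) fun i => d * w i := by
    funext i
    cases i <;> simp
  have h4 : (fun i => d ^ (Sum.elim (fun _ => 0) fun _ => 1 : ι ⊕ τ → ℕ) i *
      (Sum.elim x w : ι ⊕ τ → A) i) = Sum.elim x fun i => d * w i := by
    funext i
    cases i <;> simp
  rw [h3] at h1
  rw [h4] at h2
  rw [h1, h2, mul_assoc]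

theorem hom_scale {τ K A : Type} [Field K] [CommRing A] (φ : K →+* A)
    {g : MvPolynomial τ K} {b : ℕ} (hg : g.IsHomogeneous b) (d : A) (w : τ → A) :
    eval₂ φ (fun i => d * w i) g = d ^ b * eval₂ φ w g := by
  have h1 := wh_scale φ hg d w
  simpa using h1

variable {K Ω ι τ κ μ : Type} [Field K] [Field Ω] [Algebra K Ω]
  {f : κ → MvPolynomial (ι ⊕ τ) K} {g : μ → MvPolynomial τ K}

/-- The image in `W`. -/
def FPt₂.toW (P : FPt₂ Ω f g) : FPt Ω g := ⟨P.L, P.fin, P.w, P.ne', P.eq'⟩

theorem lift_list [Fintype ι] [Fintype τ] {B : Type} [CommRing B] {cst : K →+* B}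
    (y : ι → B) (v : τ → B) (hf : ∀ j, eval₂ cst (Sum.elim y v) (f j) = 0)
    (hg : ∀ k, eval₂ cst v (g k) = 0) :
    ∀ l : List (Σ L : IntermediateField K Ω, B →+* L),
      (∀ P ∈ l, FiniteDimensional K P.1 ∧ (∀ c : K, P.2 (cst c) = algebraMap K P.1 c) ∧
        (fun i => P.2 (y i)) ≠ 0 ∧ (fun i => P.2 (v i)) ≠ 0) →
      ∃ l' : List (FPt₂ Ω f g), (∀ u : ι × τ → K,
          (l'.map fun P => chow K P.seg u).prod
            = (l.map fun P => Algebra.norm K (P.2 (∑ s : ι × τ, cst (u s) * (y s.1 * v s.2)))).prod) ∧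
        ∀ u : τ → K, (l'.map fun P => chow K P.w u).prod
            = (l.map fun P => Algebra.norm K (P.2 (∑ s, cst (u s) * v s))).prod := by
  intro l
  induction l with
  | nil => exact fun _ => ⟨[], by simp, by simp⟩
  | cons P l ih =>
    intro h
    obtain ⟨l', h1, h2⟩ := ih fun Q hQ => h Q (List.mem_cons_of_mem _ hQ)
    obtain ⟨hfin, hc, hy, hv⟩ := h P List.mem_cons_self
    have hcomp : P.2.comp cst = algebraMap K P.1 := RingHom.ext hc
    let P' : FPt₂ Ω f g := ⟨P.1, hfin, fun i => P.2 (y i), fun i => P.2 (v i), hy, hv, fun j => by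
      have h3 := congrArg P.2 (hf j)
      rw [map_zero, hom_eval₂, hcomp] at h3
      rw [aeval_def, ← h3]
      congr 1
      funext i
      cases i <;> rfl, fun k => by
      have h3 := congrArg P.2 (hg k)
      rw [map_zero, hom_eval₂, hcomp] at h3
      rw [aeval_def, ← h3]⟩
    refine ⟨P' :: l', fun u => ?_, fun u => ?_⟩
    · rw [List.map_cons, List.prod_cons, List.map_cons, List.prod_cons, h1 u]
      congr 1
      show Algebra.norm K (∑ s : ι × τ, u s • (P.2 (y s.1) * P.2 (v s.2))) = _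
      congr 1
      rw [map_sum]
      refine Finset.sum_congr rfl fun s _ => ?_
      rw [map_mul, map_mul, hc, Algebra.smul_def]
    · rw [List.map_cons, List.prod_cons, List.map_cons, List.prod_cons, h2 u]
      congr 1
      show Algebra.norm K (∑ s, u s • (P.2 (v s))) = _
      congr 1
      rw [map_sum]
      refine Finset.sum_congr rfl fun s _ => ?_
      rw [map_mul, hc, Algebra.smul_def]

/-- The fibre at `t = a` of the curve given by `(x, w)`. -/
theorem exists_special [Infinite K] [IsAlgClosed Ω] [Fintype ι] [Fintype τ]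
    (hfh : ∀ j, ∃ a b, BiHom (f j) a b) (hgh : ∀ k, ∃ d, (g k).IsHomogeneous d) (a : K)
    {E : Type} [Field E] [Algebra (RatFunc K) E] [FiniteDimensional (RatFunc K) E]
    (x : ι → E) (w : τ → E) (hx : x ≠ 0) (hw : w ≠ 0)
    (hf : ∀ j, eval₂ ((algebraMap (RatFunc K) E).comp RatFunc.C) (Sum.elim x w) (f j) = 0)
    (hg : ∀ k, eval₂ ((algebraMap (RatFunc K) E).comp RatFunc.C) w (g k) = 0) :
    ∃ l : List (FPt₂ Ω f g),
      Special a (fun s : ι × τ => x s.1 * w s.2) (fun u => (l.map fun P => chow K P.seg u).prod) ∧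
      Special a w (fun u => (l.map fun P => chow K P.w u).prod) := by
  classical
  letI : Algebra (Polynomial K) E :=
    ((algebraMap (RatFunc K) E).comp (algebraMap (Polynomial K) (RatFunc K))).toAlgebra
  haveI : IsScalarTower (Polynomial K) (RatFunc K) E := IsScalarTower.of_algebraMap_eq fun _ => rfl
  have hC : ∀ c : K, algebraMap (Polynomial K) E (Polynomial.C c)
      = algebraMap (RatFunc K) E (RatFunc.C c) := by
    intro c
    rw [IsScalarTower.algebraMap_apply (Polynomial K) (RatFunc K) E, RatFunc.algebraMap_C]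
  obtain ⟨θ, c, q, hθ, hq, hint, hsum⟩ := exists_good a x hx
  obtain ⟨θ', c', q', hθ', hq', hint', hsum'⟩ := exists_good a w hw
  obtain ⟨B, hB, hfin, hfree, hnorm⟩ := exists_order
    (Finset.univ.image (fun i => θ * x i) ∪ Finset.univ.image fun i => θ' * w i) (by
      intro y hy
      rcases Finset.mem_union.1 hy with h | h
      · obtain ⟨i, -, rfl⟩ := Finset.mem_image.1 h
        exact hint i
      · obtain ⟨i, -, rfl⟩ := Finset.mem_image.1 h
        exact hint' i)
  obtain ⟨l, hl, hl2⟩ := exists_places Ω a B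
  let y : ι → B := fun i => ⟨θ * x i, hB _ (Finset.mem_union_left _
    (Finset.mem_image_of_mem _ (Finset.mem_univ i)))⟩
  let v : τ → B := fun i => ⟨θ' * w i, hB _ (Finset.mem_union_right _
    (Finset.mem_image_of_mem _ (Finset.mem_univ i)))⟩
  let cst : K →+* B := (algebraMap (Polynomial K) B).comp Polynomial.C
  have hcst : ∀ c : K, ((cst c : B) : E) = algebraMap (RatFunc K) E (RatFunc.C c) := hC
  have hBE : (algebraMap B E).comp cst = (algebraMap (RatFunc K) E).comp RatFunc.C :=
    RingHom.ext hC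
  have hinjB : Function.Injective (algebraMap B E) := Subtype.coe_injective
  have hfy : ∀ j, eval₂ cst (Sum.elim y v) (f j) = 0 := by
    intro j
    apply hinjB
    obtain ⟨m, n, hmn⟩ := hfh j
    rw [map_zero, hom_eval₂, hBE]
    have h1 := hmn.scale ((algebraMap (RatFunc K) E).comp RatFunc.C) θ θ' x w
    rw [hf j, mul_zero] at h1
    rw [← h1]
    congr 1
    funext i
    cases i <;> rfl
  have hgv : ∀ k, eval₂ cst v (g k) = 0 := by
    intro k
    apply hinjB
    obtain ⟨m, hm⟩ := hgh k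
    rw [map_zero, hom_eval₂, hBE]
    have h1 := hom_scale ((algebraMap (RatFunc K) E).comp RatFunc.C) hm θ' w
    rw [hg k, mul_zero] at h1
    rw [← h1]
    rfl
  have hne : ∀ {σ : Type} [Fintype σ] (z : σ → B) (c : σ → K) (q : Polynomial K),
      q.eval a ≠ 0 → ∑ i, cst (c i) * z i = algebraMap (Polynomial K) B q →
      ∀ P ∈ l, (fun i => P.2 (z i)) ≠ 0 := by
    intro σ _ z c q hq hz P hP h0
    have h1 := congrArg P.2 hz
    rw [(hl P hP).2, map_sum] at h1
    have h2 : ∀ i, P.2 (cst (c i) * z i) = 0 := by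
      intro i
      have h3 : P.2 (z i) = 0 := congr_fun h0 i
      rw [map_mul, h3, mul_zero]
    rw [Finset.sum_congr rfl fun i _ => h2 i, Finset.sum_const_zero] at h1
    exact hq ((map_eq_zero (algebraMap K P.1)).1 h1.symm)
  obtain ⟨l', h1, h2⟩ := lift_list (f := f) (g := g) y v hfy hgv l fun P hP => by
    refine ⟨(hl P hP).1, fun e => ?_, ?_, ?_⟩
    · have h3 := (hl P hP).2 (Polynomial.C e)
      rw [Polynomial.eval_C] at h3
      exact h3
    · refine hne y c q hq ?_ P hP
      apply hinjB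
      rw [map_sum]
      refine Eq.trans ?_ hsum
      refine Finset.sum_congr rfl fun i _ => ?_
      rw [Algebra.smul_def]
      show ((cst (c i) : B) : E) * (θ * x i) = _
      rw [hcst]
    · refine hne v c' q' hq' ?_ P hP
      apply hinjB
      rw [map_sum]
      refine Eq.trans ?_ hsum'
      refine Finset.sum_congr rfl fun i _ => ?_
      rw [Algebra.smul_def]
      show ((cst (c' i) : B) : E) * (θ' * w i) = _
      rw [hcst]
  have hkey : ∀ {σ : Type} [Fintype σ] (z : σ → B) (s : σ → E) (ξ : E), ξ ≠ 0 →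
      (∀ i, ((z i : B) : E) = ξ * s i) → ∀ u : σ → K,
      Val a (Algebra.norm (RatFunc K) ξ * chow (RatFunc K) s (fun i => RatFunc.C (u i)))
        (l.map fun P => Algebra.norm K (P.2 (∑ i, cst (u i) * z i))).prod := by
    intro σ _ z s ξ hξ hz u
    rw [← hl2]
    have h3 : Algebra.norm (RatFunc K) ξ * chow (RatFunc K) s (fun i => RatFunc.C (u i))
        = algebraMap (Polynomial K) (RatFunc K)
          (Algebra.norm (Polynomial K) (∑ i, cst (u i) * z i)) := by
      rw [← hnorm]
      unfold chow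
      rw [← map_mul]
      congr 1
      rw [Finset.mul_sum]
      show _ = algebraMap B E (∑ i, cst (u i) * z i)
      rw [map_sum]
      refine Finset.sum_congr rfl fun i _ => ?_
      show _ = ((cst (u i) : B) : E) * ((z i : B) : E)
      rw [hcst, hz, Algebra.smul_def]
      ring
    rw [h3]
    exact Val.poly _
  refine ⟨l', ⟨Algebra.norm (RatFunc K) (θ * θ'), ?_, fun u => ?_⟩,
    ⟨Algebra.norm (RatFunc K) θ', ?_, fun u => ?_⟩⟩
  · rw [Ne, Algebra.norm_eq_zero_iff]
    exact mul_ne_zero hθ hθ'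
  · show Val a _ ((l'.map fun P => chow K P.seg u).prod)
    rw [h1 u]
    refine hkey (fun s : ι × τ => y s.1 * v s.2) _ (θ * θ') (mul_ne_zero hθ hθ') (fun s => ?_) u
    show (θ * x s.1) * (θ' * w s.2) = θ * θ' * (x s.1 * w s.2)
    ring
  · rw [Ne, Algebra.norm_eq_zero_iff]
    exact hθ'
  · show Val a _ ((l'.map fun P => chow K P.w u).prod)
    rw [h2 u]
    exact hkey v w θ' hθ' (fun i => rfl) u

end Pool.Agent.Run7.h652.FB
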