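import Mathlib
import Pool.Agent.Run7.h652.FB.Spec
import Pool.Agent.Run7.h652.ZC.Push

/-!
An effective zero-cycle is determined by its Chow form.
-/

set_option autoImplicit false
set_option linter.style.haveILetI false

namespace Pool.Agent.Run7.h652.FB

open Polynomial IntermediateField Module
open Pool.Agent.Run7.h652.ZC (Pt Conj ClosedPt Cyc push resField conjSetoid)

section norm

variable {K L : Type} [Field K] [Field L] [Algebra K L] [FiniteDimensional K L]

theorem norm_sub (θ : L) (T : K) : Algebra.norm K (algebraMap K L T - θ)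
    = ((minpoly K θ).eval T) ^ (finrank K L / (minpoly K θ).natDegree) := by
  have hint : IsIntegral K θ := Algebra.IsIntegral.isIntegral θ
  let y : K⟮θ⟯ := algebraMap K K⟮θ⟯ T - AdjoinSimple.gen K θ
  have h1 : algebraMap K L T - θ = algebraMap K⟮θ⟯ L y := by
    rw [map_sub, ← IsScalarTower.algebraMap_apply, AdjoinSimple.algebraMap_gen]
  have h2 : Algebra.norm K y = (minpoly K θ).eval T := by
    have h3 := charpoly_leftMulMatrix (adjoin.powerBasis hint)
    have h4 : minpoly K (adjoin.powerBasis hint).gen = minpoly K θ := minpoly_gen K θ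
    rw [h4] at h3
    rw [← h3, Matrix.eval_charpoly, Algebra.norm_eq_matrix_det (adjoin.powerBasis hint).basis,
      map_sub]
    congr 2
    rw [AlgHom.commutes]
    rfl
  rw [h1, ← Algebra.norm_norm (S := K⟮θ⟯), Algebra.norm_algebraMap, map_pow, h2]
  congr 1
  rw [← adjoin.finrank hint, ← finrank_mul_finrank K K⟮θ⟯ L, Nat.mul_div_cancel_left _ finrank_pos]

end norm

section avoid

variable {K Ω τ : Type} [Field K] [Field Ω] [Algebra K Ω] [Fintype τ]

theorem avoid [Infinite K] (S : Set (τ → Ω)) (hS : S.Finite) (h0 : ∀ v ∈ S, v ≠ 0) :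
    ∃ u : τ → K, ∀ v ∈ S, ∑ i, u i • v i ≠ 0 := by
  classical
  have := hS.to_subtype
  let p : S → Subspace K (τ → K) := fun v =>
    { carrier := {u | ∑ i, u i • v.1 i = 0}
      add_mem' := by
        intro u u' hu hu'
        show ∑ i, (u i + u' i) • v.1 i = 0
        have h1 : ∀ i, (u i + u' i) • v.1 i = u i • v.1 i + u' i • v.1 i := fun i => add_smul _ _ _
        rw [Finset.sum_congr rfl fun i _ => h1 i, Finset.sum_add_distrib]
        have h2 : ∑ i, u i • v.1 i = 0 := hu
        have h3 : ∑ i, u' i • v.1 i = 0 := hu'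
        rw [h2, h3, add_zero]
      zero_mem' := by
        show ∑ i, (0 : K) • v.1 i = 0
        simp
      smul_mem' := by
        intro c u hu
        show ∑ i, (c * u i) • v.1 i = 0
        have h1 : ∀ i, (c * u i) • v.1 i = c • (u i • v.1 i) := fun i => mul_smul _ _ _
        have h2 : ∑ i, u i • v.1 i = 0 := hu
        rw [Finset.sum_congr rfl fun i _ => h1 i, ← Finset.smul_sum, h2, smul_zero] }
  by_contra hcon
  push Not at hcon
  have hcov : ⋃ i, (p i : Set (τ → K)) = Set.univ := by
    rw [Set.eq_univ_iff_forall]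
    intro u
    obtain ⟨v, hv, hv2⟩ := hcon u
    exact Set.mem_iUnion.2 ⟨⟨v, hv⟩, hv2⟩
  obtain ⟨v, hv⟩ := Subspace.exists_eq_top_of_iUnion_eq_univ hcov
  apply h0 v.1 v.2
  funext i
  have h1 : (Pi.single i 1 : τ → K) ∈ p v := by
    rw [hv]
    exact Submodule.mem_top
  have h2 : ∑ j, (Pi.single i 1 : τ → K) j • v.1 j = 0 := h1
  rw [Finset.sum_eq_single i] at h2
  · rw [Pi.single_eq_same, one_smul] at h2
    exact h2
  · intro j _ hj
    rw [Pi.single_eq_of_ne hj, zero_smul]
  · intro h
    exact absurd (Finset.mem_univ i) h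

omit [Fintype τ] in
theorem finite_orbit [Finite τ] [Algebra.IsAlgebraic K Ω] (v : τ → Ω) :
    {w : τ → Ω | ∃ σ : Ω ≃ₐ[K] Ω, w = fun i => σ (v i)}.Finite := by
  classical
  refine Set.Finite.subset (Set.Finite.pi' (t := fun i => {z : Ω | z ∈ (minpoly K (v i)).aroots Ω})
    fun i => ?_) ?_
  · exact (((minpoly K (v i)).aroots Ω).toFinset.finite_toSet).subset fun z hz => by
      rw [Finset.mem_coe, Multiset.mem_toFinset]
      exact hz
  · rintro _ ⟨σ, rfl⟩ i
    show σ (v i) ∈ (minpoly K (v i)).aroots Ω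
    rw [mem_aroots]
    refine ⟨minpoly.ne_zero (Algebra.IsIntegral.isIntegral _), ?_⟩
    have h1 := aeval_algHom_apply (σ : Ω →ₐ[K] Ω) (v i) (minpoly K (v i))
    rw [minpoly.aeval, map_zero] at h1
    exact h1

end avoid

variable {K Ω τ μ : Type} [Field K] [Field Ω] [Algebra K Ω] [Fintype τ]
  {g : μ → MvPolynomial τ K}

/-- the linear form -/
noncomputable def FPt.lam (P : FPt Ω g) (u : τ → K) : P.L := ∑ i, u i • P.w i

theorem FPt.lam_coe (P : FPt Ω g) (u : τ → K) : ((P.lam u : P.L) : Ω) = ∑ i, u i • (P.w i : Ω) := by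
  show algebraMap P.L Ω (∑ i, u i • P.w i) = _
  rw [map_sum]
  rfl

theorem FPt.lam_sub (P : FPt Ω g) (u v : τ → K) (T : K) :
    P.lam (fun i => T * u i - v i) = algebraMap K P.L T * P.lam u - P.lam v := by
  unfold FPt.lam
  rw [Finset.mul_sum, ← Finset.sum_sub_distrib]
  refine Finset.sum_congr rfl fun i _ => ?_
  rw [sub_smul, mul_smul, Algebra.smul_def T]

theorem count_prod {α : Type} (F : α → K[X]) (hF : ∀ x, F x ≠ 0) (θ : Ω) (l : List α) :
    (((l.map F).prod.map (algebraMap K Ω)).rootMultiplicity θ)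
      = (l.map fun x => ((F x).map (algebraMap K Ω)).rootMultiplicity θ).sum := by
  induction l with
  | nil =>
    simp only [List.map_nil, List.prod_nil, Polynomial.map_one, List.sum_nil]
    rw [← C_1, rootMultiplicity_C]
  | cons x l ih =>
    rw [List.map_cons, List.prod_cons, Polynomial.map_mul, rootMultiplicity_mul, ih,
      List.map_cons, List.sum_cons]
    refine mul_ne_zero ?_ ?_
    · rw [Ne, Polynomial.map_eq_zero]
      exact hF x
    · rw [Ne, Polynomial.map_eq_zero]
      intro h0
      rw [List.prod_eq_zero_iff] at h0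
      obtain ⟨y, -, hy⟩ := List.mem_map.1 h0
      exact hF y hy

theorem rootMultiplicity_pow' {p : Polynomial Ω} (_ : p ≠ 0) (n : ℕ) (θ : Ω) :
    (p ^ n).rootMultiplicity θ = n * p.rootMultiplicity θ := by
  classical
  rw [← count_roots, ← count_roots, roots_pow, Multiset.count_nsmul]

omit [Fintype τ] in
/-- The coefficient of a closed point in a sum of push-forwards. -/
theorem sum_cyc_apply (Q : ClosedPt Ω g) [DecidableEq (ClosedPt Ω g)] (l : List (FPt Ω g)) :
    ((l.map FPt.cyc).sum) Q = ((l.map fun P => if ZC.cl P.pt = Q then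
      finrank K P.L / finrank K (resField K P.pt.1) else 0).sum : ℕ) := by
  induction l with
  | nil => simp
  | cons P l ih =>
    rw [List.map_cons, List.sum_cons, Finsupp.add_apply, ih, List.map_cons, List.sum_cons,
      Nat.cast_add]
    congr 1
    unfold FPt.cyc push
    rw [Finsupp.single_apply]
    show (if ZC.cl P.pt = Q then _ else _) = _
    split_ifs <;> simp

/-- **An effective zero-cycle is determined by its Chow form.** -/
theorem cyc_eq_of_chow [Infinite K] [IsAlgClosed Ω] [Algebra.IsAlgebraic K Ω]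
    (l m : List (FPt Ω g)) (c : K) (hc : c ≠ 0)
    (h : ∀ u : τ → K, (l.map fun P => chow K P.w u).prod = c * (m.map fun P => chow K P.w u).prod) :
    (l.map FPt.cyc).sum = (m.map FPt.cyc).sum := by
  classical
  have hclos : IsAlgClosure K Ω := ⟨inferInstance, inferInstance⟩
  have hnorm : Normal K Ω := IsAlgClosure.normal K Ω
  -- the first vector
  obtain ⟨u₁, hu₁⟩ := avoid (K := K) {v : τ → Ω | ∃ P ∈ l ++ m, v = P.pt.1}
    (((l ++ m).map fun P => P.pt.1).toFinset.finite_toSet.subset (by
      rintro _ ⟨P, hP, rfl⟩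
      rw [Finset.mem_coe, List.mem_toFinset]
      exact List.mem_map.2 ⟨P, hP, rfl⟩)) (by
      rintro _ ⟨P, -, rfl⟩
      exact P.pt.2.1)
  have hlam : ∀ P ∈ l ++ m, P.lam u₁ ≠ 0 := by
    intro P hP h0
    apply hu₁ _ ⟨P, hP, rfl⟩
    have h1 := P.lam_coe u₁
    rw [h0] at h1
    exact h1.symm
  let nv : FPt Ω g → τ → Ω := fun P i => (P.w i : Ω) / (P.lam u₁ : Ω)
  -- the second vector
  obtain ⟨u₀, hu₀⟩ := avoid (K := K) {v : τ → Ω | ∃ P ∈ l ++ m, ∃ P' ∈ l ++ m,
      ∃ σ : Ω ≃ₐ[K] Ω, (fun i => nv P i - σ (nv P' i)) ≠ 0 ∧ v = fun i => nv P i - σ (nv P' i)}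
    (by
      have h1 : ∀ P P' : FPt Ω g, {v : τ → Ω | ∃ σ : Ω ≃ₐ[K] Ω,
          v = fun i => nv P i - σ (nv P' i)}.Finite := by
        intro P P'
        refine ((finite_orbit (K := K) (nv P')).image fun v i => nv P i - v i).subset ?_
        rintro _ ⟨σ, rfl⟩
        exact ⟨_, ⟨σ, rfl⟩, rfl⟩
      refine Set.Finite.subset (Set.Finite.biUnion (l ++ m).toFinset.finite_toSet fun P _ =>
        Set.Finite.biUnion (l ++ m).toFinset.finite_toSet fun P' _ => h1 P P') ?_
      rintro _ ⟨P, hP, P', hP', σ, -, rfl⟩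
      refine Set.mem_biUnion (Finset.mem_coe.2 (List.mem_toFinset.2 hP)) ?_
      exact Set.mem_biUnion (Finset.mem_coe.2 (List.mem_toFinset.2 hP')) ⟨σ, rfl⟩) (by
      rintro _ ⟨P, -, P', -, σ, h1, rfl⟩
      exact h1)
  let θ : ∀ P : FPt Ω g, P.L := fun P => P.lam u₀ / P.lam u₁
  have hθ : ∀ P : FPt Ω g, ((θ P : P.L) : Ω) = ∑ i, u₀ i • nv P i := by
    intro P
    show ((P.lam u₀ : P.L) : Ω) / ((P.lam u₁ : P.L) : Ω) = _
    rw [P.lam_coe u₀, Finset.sum_div]
    refine Finset.sum_congr rfl fun i _ => ?_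
    rw [Algebra.smul_def, Algebra.smul_def, mul_div_assoc]
  have hmin : ∀ P : FPt Ω g, minpoly K (θ P) = minpoly K ((θ P : P.L) : Ω) :=
    fun P => (minpoly.algebraMap_eq (algebraMap P.L Ω).injective (θ P)).symm
  -- points in the same class
  have hsame : ∀ P P' : FPt Ω g, ZC.cl P.pt = ZC.cl P'.pt → P.lam u₁ ≠ 0 →
      minpoly K (θ P) = minpoly K (θ P') := by
    intro P P' hPP hne
    obtain ⟨σ, d, hd, hσ⟩ := Quotient.exact hPP
    have hσ' : ∀ i, (P'.w i : Ω) = d * σ (P.w i : Ω) := hσ
    have h1 : ∀ u : τ → K, ((P'.lam u : P'.L) : Ω) = d * σ ((P.lam u : P.L) : Ω) := by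
      intro u
      rw [P.lam_coe, P'.lam_coe, map_sum, Finset.mul_sum]
      refine Finset.sum_congr rfl fun i _ => ?_
      rw [hσ' i, map_smul, mul_smul_comm]
    rw [hmin, hmin]
    have h2 : ((θ P' : P'.L) : Ω) = σ ((θ P : P.L) : Ω) := by
      show ((P'.lam u₀ : P'.L) : Ω) / ((P'.lam u₁ : P'.L) : Ω)
        = σ (((P.lam u₀ : P.L) : Ω) / ((P.lam u₁ : P.L) : Ω))
      rw [h1, h1, mul_div_mul_left _ _ hd, map_div₀]
    rw [h2]
    exact (minpoly.algEquiv_eq σ _).symm
  have hdiff : ∀ P ∈ l ++ m, ∀ P' ∈ l ++ m, ZC.cl P.pt ≠ ZC.cl P'.pt →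
      aeval ((θ P : P.L) : Ω) (minpoly K (θ P')) ≠ 0 := by
    intro P hP P' hP' hne h0
    rw [hmin] at h0
    have h1 : IsConjRoot K ((θ P : P.L) : Ω) ((θ P' : P'.L) : Ω) := by
      have h2 := minpoly.eq_of_irreducible_of_monic
        (minpoly.irreducible (Algebra.IsIntegral.isIntegral (R := K) ((θ P' : P'.L) : Ω))) h0
        (minpoly.monic (Algebra.IsIntegral.isIntegral _))
      exact h2.symm
    obtain ⟨σ, hσ⟩ := isConjRoot_iff_exists_algEquiv.1 h1
    by_cases hz : (fun i => nv P i - σ (nv P' i)) = 0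
    · apply hne
      symm
      have h3 : ∀ i, nv P i = σ (nv P' i) := fun i => sub_eq_zero.1 (congr_fun hz i)
      have h4 : ((P.lam u₁ : P.L) : Ω) ≠ 0 := by
        intro h5
        exact hlam P hP (Subtype.ext h5)
      have h4' : ((P'.lam u₁ : P'.L) : Ω) ≠ 0 := by
        intro h5
        exact hlam P' hP' (Subtype.ext h5)
      refine ZC.cl_eq σ (((P.lam u₁ : P.L) : Ω) / σ ((P'.lam u₁ : P'.L) : Ω)) ?_ fun i => ?_
      · refine div_ne_zero h4 ?_
        rw [Ne, EmbeddingLike.map_eq_zero_iff]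
        exact h4'
      · have h5 := h3 i
        show (P.w i : Ω) = _ * σ (P'.w i : Ω)
        have h6 : σ ((P'.lam u₁ : P'.L) : Ω) ≠ 0 := by
          rw [Ne, EmbeddingLike.map_eq_zero_iff]
          exact h4'
        show (P.w i : Ω) = _
        have h7 : (P.w i : Ω) / ((P.lam u₁ : P.L) : Ω)
            = σ (P'.w i : Ω) / σ ((P'.lam u₁ : P'.L) : Ω) := by
          rw [← map_div₀]
          exact h5
        rw [div_eq_div_iff h4 h6] at h7
        field_simp
        linear_combination h7
    · apply hu₀ _ ⟨P, hP, P', hP', σ, hz, rfl⟩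
      have h3 : ∑ i, u₀ i • (nv P i - σ (nv P' i))
          = ((θ P : P.L) : Ω) - σ ((θ P' : P'.L) : Ω) := by
        rw [hθ, hθ, map_sum, ← Finset.sum_sub_distrib]
        refine Finset.sum_congr rfl fun i _ => ?_
        rw [smul_sub, map_smul]
      rw [h3, hσ, sub_self]
  -- the polynomials
  let F : FPt Ω g → K[X] := fun P =>
    (minpoly K (θ P)) ^ (finrank K P.L / (minpoly K (θ P)).natDegree)
  have hfin : ∀ P : FPt Ω g, FiniteDimensional K P.L := fun P => P.fin
  have hF : ∀ P, F P ≠ 0 := fun P => pow_ne_zero _ (minpoly.ne_zero (Algebra.IsIntegral.isIntegral _))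
  have hchow : ∀ P ∈ l ++ m, ∀ T : K, chow K P.w (fun i => T * u₁ i - u₀ i)
      = Algebra.norm K (P.lam u₁) * (F P).eval T := by
    intro P hP T
    show Algebra.norm K (P.lam _) = _
    rw [P.lam_sub, eval_pow, ← norm_sub, ← map_mul]
    congr 1
    show _ = P.lam u₁ * (_ - P.lam u₀ / P.lam u₁)
    field_simp [hlam P hP]
  have hprod : ∀ l' : List (FPt Ω g), (∀ P ∈ l', P ∈ l ++ m) → ∃ α : K, α ≠ 0 ∧ ∀ T : K,
      (l'.map fun P => chow K P.w (fun i => T * u₁ i - u₀ i)).prod
        = α * ((l'.map F).prod.eval T) := by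
    intro l'
    induction l' with
    | nil => exact fun _ => ⟨1, one_ne_zero, fun T => by simp⟩
    | cons P l' ih =>
      intro hl'
      obtain ⟨α, hα, hα2⟩ := ih fun Q hQ => hl' Q (List.mem_cons_of_mem _ hQ)
      have hP := hl' P List.mem_cons_self
      refine ⟨Algebra.norm K (P.lam u₁) * α, mul_ne_zero ?_ hα, fun T => ?_⟩
      · rw [Ne, Algebra.norm_eq_zero_iff]
        exact hlam P hP
      · rw [List.map_cons, List.prod_cons, hα2 T, hchow P hP T, List.map_cons, List.prod_cons,
          eval_mul]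
        ring
  obtain ⟨α, hα, hα2⟩ := hprod l fun P hP => List.mem_append_left _ hP
  obtain ⟨β, hβ, hβ2⟩ := hprod m fun P hP => List.mem_append_right _ hP
  have hpoly : C α * (l.map F).prod = C (c * β) * (m.map F).prod := by
    refine Polynomial.funext fun T => ?_
    rw [eval_mul, eval_mul, eval_C, eval_C, ← hα2, mul_assoc, ← hβ2]
    exact h _
  have hcount : ∀ z : Ω, (l.map fun P => ((F P).map (algebraMap K Ω)).rootMultiplicity z).sum
      = (m.map fun P => ((F P).map (algebraMap K Ω)).rootMultiplicity z).sum := by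
    intro z
    rw [← count_prod F hF, ← count_prod F hF]
    have h1 : ∀ (γ : K) (p : K[X]), γ ≠ 0 → ((C γ * p).map (algebraMap K Ω)).rootMultiplicity z
        = (p.map (algebraMap K Ω)).rootMultiplicity z := by
      intro γ p hγ
      rw [Polynomial.map_mul, map_C, ← count_roots, ← count_roots, roots_C_mul]
      rw [Ne, map_eq_zero]
      exact hγ
    rw [← h1 α _ hα, hpoly, h1 _ _ (mul_ne_zero hc hβ)]
  -- the coefficients
  ext Q
  rw [sum_cyc_apply, sum_cyc_apply]
  congr 1
  by_cases hQ : ∃ P ∈ l ++ m, ZC.cl P.pt = Q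
  · obtain ⟨P₀, hP₀, rfl⟩ := hQ
    have h1 := hcount ((θ P₀ : P₀.L) : Ω)
    set s := ((minpoly K (θ P₀)).map (algebraMap K Ω)).rootMultiplicity ((θ P₀ : P₀.L) : Ω) with hs
    set δ := (minpoly K (θ P₀)).natDegree with hδ
    set r := finrank K (resField K P₀.pt.1) with hr
    have hδ0 : 0 < δ := minpoly.natDegree_pos (Algebra.IsIntegral.isIntegral _)
    have hr0 : 0 < r := finrank_pos
    have hs0 : 0 < s := by
      rw [hs, rootMultiplicity_pos (by
        rw [Ne, Polynomial.map_eq_zero]
        exact minpoly.ne_zero (Algebra.IsIntegral.isIntegral _)), IsRoot.def, eval_map_algebraMap,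
        hmin, minpoly.aeval]
    have h2 : ∀ P ∈ l ++ m, r * ((F P).map (algebraMap K Ω)).rootMultiplicity ((θ P₀ : P₀.L) : Ω)
        * δ = s * r * r * (if ZC.cl P.pt = ZC.cl P₀.pt then
          finrank K P.L / finrank K (resField K P.pt.1) else 0) := by
      intro P hP
      split_ifs with hcl
      · have h3 := hsame P P₀ hcl (hlam P hP)
        have h4 : finrank K (resField K P.pt.1) = r := by
          obtain ⟨σ, d, hd, hσ⟩ := Quotient.exact hcl
          exact (ZC.finrank_resField_conj σ d hd hσ).symm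
        have h5 : r ∣ finrank K P.L := by
          rw [← h4]
          exact ZC.finrank_dvd (ZC.resField_le fun i => SetLike.coe_mem _)
        have h6 : δ ∣ finrank K P.L := by
          rw [hδ, ← h3]
          exact minpoly.degree_dvd (Algebra.IsIntegral.isIntegral _)
        show r * (((minpoly K (θ P)) ^ (finrank K P.L / (minpoly K (θ P)).natDegree)).map
          (algebraMap K Ω)).rootMultiplicity _ * δ = _
        rw [Polynomial.map_pow, rootMultiplicity_pow' (by
          rw [Ne, Polynomial.map_eq_zero]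
          exact minpoly.ne_zero (Algebra.IsIntegral.isIntegral _)), h3, ← hs, ← hδ, h4]
        obtain ⟨n, hn⟩ := h5
        obtain ⟨n', hn'⟩ := h6
        have h7 : finrank K P.L / r = n := by rw [hn, Nat.mul_div_cancel_left _ hr0]
        have h8 : finrank K P.L / δ = n' := by rw [hn', Nat.mul_div_cancel_left _ hδ0]
        rw [h7, h8]
        have h9 : r * n = δ * n' := by rw [← hn, ← hn']
        calc r * (n' * s) * δ = r * s * (δ * n') := by ring
          _ = _ := by rw [← h9]; ring
      · rw [mul_zero]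
        have h3 : ((F P).map (algebraMap K Ω)).rootMultiplicity ((θ P₀ : P₀.L) : Ω) = 0 := by
          show (((minpoly K (θ P)) ^ (finrank K P.L / (minpoly K (θ P)).natDegree)).map
            (algebraMap K Ω)).rootMultiplicity _ = 0
          rw [Polynomial.map_pow, rootMultiplicity_pow' (by
            rw [Ne, Polynomial.map_eq_zero]
            exact minpoly.ne_zero (Algebra.IsIntegral.isIntegral _)), rootMultiplicity_eq_zero,
            mul_zero]
          rw [IsRoot.def, eval_map_algebraMap]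
          exact hdiff P₀ hP₀ P hP fun h => hcl h.symm
        rw [h3]
        ring
    have h3 : ∀ l' : List (FPt Ω g), (∀ P ∈ l', P ∈ l ++ m) →
        r * (l'.map fun P => ((F P).map (algebraMap K Ω)).rootMultiplicity
          ((θ P₀ : P₀.L) : Ω)).sum * δ = s * r * r * (l'.map fun P =>
          if ZC.cl P.pt = ZC.cl P₀.pt then
          finrank K P.L / finrank K (resField K P.pt.1) else 0).sum := by
      intro l'
      induction l' with
      | nil => simp
      | cons P l' ih =>
        intro hl'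
        rw [List.map_cons, List.sum_cons, List.map_cons, List.sum_cons, mul_add, add_mul,
          ih fun Q hQ => hl' Q (List.mem_cons_of_mem _ hQ), h2 P (hl' P List.mem_cons_self),
          mul_add]
    have h4 := h3 l fun P hP => List.mem_append_left _ hP
    rw [h1, h3 m fun P hP => List.mem_append_right _ hP] at h4
    exact (Nat.eq_of_mul_eq_mul_left (by positivity) h4).symm
  · push Not at hQ
    have h1 : ∀ l' : List (FPt Ω g), (∀ P ∈ l', P ∈ l ++ m) →
        (l'.map fun P => if ZC.cl P.pt = Q then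
          finrank K P.L / finrank K (resField K P.pt.1) else 0).sum = 0 := by
      intro l'
      induction l' with
      | nil => simp
      | cons P l' ih =>
        intro hl'
        rw [List.map_cons, List.sum_cons, ih fun Q hQ => hl' Q (List.mem_cons_of_mem _ hQ),
          if_neg (hQ P (hl' P List.mem_cons_self))]
    rw [h1 l fun P hP => List.mem_append_left _ hP, h1 m fun P hP => List.mem_append_right _ hP]

end Pool.Agent.Run7.h652.FB
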