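import Mathlib
import Pool.Agent.Run7.h652.FB.Inj

/-!
Rational curves.
-/

set_option autoImplicit false
set_option linter.style.haveILetI false

namespace Pool.Agent.Run7.h652.FB

open Polynomial Module Algebra nonZeroDivisors

attribute [local instance] Polynomial.algebra

section norm

variable {K L : Type} [Field K] [Field L] [Algebra K L] [FiniteDimensional K L]

/-- The basis of `L[X]` over `K[X]`. -/
noncomputable def basX (K L : Type) [Field K] [Field L] [Algebra K L] [FiniteDimensional K L] :
    Basis (Fin (finrank K L)) K[X] L[X] :=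
  (Algebra.IsPushout.out (R := K) (S := K[X]) (R' := L) (S' := L[X])).basis (finBasis K L)

theorem basX_apply (k : Fin (finrank K L)) : basX K L k = C (finBasis K L k) :=
  IsBaseChange.basis_apply _ _ k

theorem basX_repr_eval (a : K) (q : L[X]) (k : Fin (finrank K L)) :
    ((basX K L).repr q k).eval a = (finBasis K L).repr (q.eval (algebraMap K L a)) k := by
  have h1 : q.eval (algebraMap K L a)
      = ∑ k, ((basX K L).repr q k).eval a • finBasis K L k := by
    conv_lhs => rw [← (basX K L).sum_repr q]
    rw [eval_finsetSum]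
    refine Finset.sum_congr rfl fun k _ => ?_
    rw [Algebra.smul_def, Polynomial.algebraMap_def, coe_mapRingHom, eval_mul, eval_map_algebraMap,
      aeval_algebraMap_apply_eq_algebraMap_eval, basX_apply, eval_C, Algebra.smul_def]
  rw [h1, Basis.repr_sum_self]

theorem norm_eval (a : K) (p : L[X]) :
    (Algebra.norm K[X] p).eval a = Algebra.norm K (p.eval (algebraMap K L a)) := by
  classical
  rw [Algebra.norm_eq_matrix_det (basX K L), Algebra.norm_eq_matrix_det (finBasis K L),
    ← Polynomial.coe_evalRingHom, RingHom.map_det]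
  congr 1
  ext i j
  rw [RingHom.mapMatrix_apply, Matrix.map_apply, Algebra.leftMulMatrix_eq_repr_mul,
    Algebra.leftMulMatrix_eq_repr_mul, coe_evalRingHom, basX_repr_eval, eval_mul, basX_apply,
    eval_C]

end norm

section ext

variable (K L : Type) [Field K] [Field L] [Algebra K L]

theorem inj_poly : Function.Injective (algebraMap K[X] (RatFunc L)) := by
  rw [IsScalarTower.algebraMap_eq K[X] L[X] (RatFunc L)]
  exact (RatFunc.algebraMap_injective L).comp (FaithfulSMul.algebraMap_injective K[X] L[X])

/-- The extension `L(t)` of `K(t)`. -/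
@[reducible] noncomputable def extAlg : Algebra (RatFunc K) (RatFunc L) :=
  (IsFractionRing.lift (A := K[X]) (K := RatFunc K) (inj_poly K L)).toAlgebra

theorem ext_tower : letI := extAlg K L; IsScalarTower K[X] (RatFunc K) (RatFunc L) := by
  letI := extAlg K L
  exact IsScalarTower.of_algebraMap_eq fun p => (IsFractionRing.lift_algebraMap _ p).symm

theorem ext_finite [FiniteDimensional K L] :
    letI := extAlg K L; FiniteDimensional (RatFunc K) (RatFunc L) := by
  letI := extAlg K L
  haveI := ext_tower K L
  haveI : Module.Finite K[X] L[X] := Module.Finite.of_basis (basX K L)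
  exact Module.Finite.of_isLocalization K[X] L[X] K[X]⁰

theorem ext_norm [FiniteDimensional K L] (p : L[X]) : letI := extAlg K L;
    Algebra.norm (RatFunc K) (algebraMap L[X] (RatFunc L) p)
      = algebraMap K[X] (RatFunc K) (Algebra.norm K[X] p) := by
  letI := extAlg K L
  haveI := ext_tower K L
  haveI : Module.Finite K[X] L[X] := Module.Finite.of_basis (basX K L)
  haveI : Module.Free K[X] L[X] := Module.Free.of_basis (basX K L)
  exact Algebra.norm_localization K[X] K[X]⁰ p

theorem ext_const (c : K) : letI := extAlg K L;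
    algebraMap (RatFunc K) (RatFunc L) (RatFunc.C c)
      = algebraMap L[X] (RatFunc L) (C (algebraMap K L c)) := by
  letI := extAlg K L
  haveI := ext_tower K L
  rw [← RatFunc.algebraMap_C, ← IsScalarTower.algebraMap_apply K[X] (RatFunc K) (RatFunc L),
    IsScalarTower.algebraMap_apply K[X] L[X] (RatFunc L), Polynomial.algebraMap_def,
    coe_mapRingHom, map_C]

end ext

/-- The curve `γ` in the parameter `t / (1 - t)`. -/
noncomputable def repar {L : Type} [Field L] (r : ℕ) (γ : L[X]) : L[X] :=
  ∑ k ∈ Finset.range (r + 1), C (γ.coeff k) * (X ^ k * (1 - X) ^ (r - k))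

theorem repar_zero {L : Type} [Field L] (r : ℕ) (γ : L[X]) :
    (repar r γ).eval 0 = γ.coeff 0 := by
  unfold repar
  rw [eval_finsetSum, Finset.sum_eq_single 0]
  · simp
  · intro k _ hk
    simp [hk]
  · simp

theorem repar_one {L : Type} [Field L] (r : ℕ) (γ : L[X]) :
    (repar r γ).eval 1 = γ.coeff r := by
  unfold repar
  rw [eval_finsetSum, Finset.sum_eq_single r]
  · simp
  · intro k hk hk2
    have h1 : r - k ≠ 0 := by
      have := Finset.mem_range.1 hk
      omega
    simp [h1]
  · simp

theorem repar_eq {L : Type} [Field L] (r : ℕ) (γ : L[X]) (hγ : γ.natDegree ≤ r) :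
    algebraMap L[X] (RatFunc L) (repar r γ)
      = algebraMap L[X] (RatFunc L) (1 - X) ^ r *
        aeval (algebraMap L[X] (RatFunc L) X / algebraMap L[X] (RatFunc L) (1 - X)) γ := by
  have h0 : algebraMap L[X] (RatFunc L) (1 - X) ≠ 0 := by
    rw [Ne, FaithfulSMul.algebraMap_eq_zero_iff]
    intro h
    have h1 := congrArg (eval 0) h
    simp at h1
  unfold repar
  rw [aeval_eq_sum_range' (Nat.lt_succ_of_le hγ), map_sum, Finset.mul_sum]
  refine Finset.sum_congr rfl fun k hk => ?_
  have hk' : k ≤ r := Nat.lt_succ_iff.1 (Finset.mem_range.1 hk)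
  rw [map_mul, map_mul, map_pow, map_pow, div_pow, Algebra.smul_def]
  have h2 : algebraMap L[X] (RatFunc L) (1 - X) ^ r
      = algebraMap L[X] (RatFunc L) (1 - X) ^ k * algebraMap L[X] (RatFunc L) (1 - X) ^ (r - k) := by
    rw [← pow_add, Nat.add_sub_cancel' hk']
  have h3 : algebraMap L[X] (RatFunc L) (C (γ.coeff k)) = algebraMap L (RatFunc L) (γ.coeff k) := rfl
  rw [h2, h3]
  field_simp

variable {K Ω ι τ κ μ : Type} [Field K] [Field Ω] [Algebra K Ω]
  {f : κ → MvPolynomial (ι ⊕ τ) K} {g : μ → MvPolynomial τ K}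

/-- A rational curve in a fibre of `V` over `W`. -/
theorem fibres_of_curve [Fintype ι] [Fintype τ] (hbi : ∀ j, ∃ a b, BiHom (f j) a b)
    (L : IntermediateField K Ω) [FiniteDimensional K L] (γ : ι → L[X]) (r : ℕ) (w : τ → L)
    (hγ : ∀ j, MvPolynomial.eval₂ ((C : L →+* L[X]).comp (algebraMap K L))
      (Sum.elim γ fun i => C (w i)) (f j) = 0)
    (hr : ∀ i, (γ i).natDegree ≤ r) (P Q : Pt₂ Ω f g)
    (hP : ∀ i, P.1.1 i = (γ i).coeff 0) (hP' : ∀ i, P.1.2 i = w i)
    (hQ : ∀ i, Q.1.1 i = (γ i).coeff r) (hQ' : ∀ i, Q.1.2 i = w i) :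
    Fibres₂ (push₂ L P - push₂ L Q) := by
  classical
  letI := extAlg K L
  haveI := ext_tower K L
  have hw : w ≠ 0 := by
    intro h
    apply P.2.2.1
    funext i
    rw [hP' i, h]
    rfl
  have hgw : ∀ k, MvPolynomial.aeval w (g k) = 0 := by
    intro k
    apply (algebraMap L Ω).injective
    rw [map_zero]
    refine Eq.trans ?_ (P.2.2.2.2 k)
    have h1 : P.1.2 = fun i => (w i : Ω) := funext hP'
    rw [h1]
    exact (MvPolynomial.aeval_algebraMap_apply Ω w (g k)).symm
  have hpt : ∀ (x : ι → L) (R : Pt₂ Ω f g), (∀ i, R.1.1 i = x i) → (∀ i, R.1.2 i = w i) →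
      ∃ F : FPt₂ Ω f g, ∃ hL : F.L = L, F.cyc = push₂ L R ∧
        ∀ u : ι × τ → K, chow K F.seg u = Algebra.norm K (∑ s, u s • (x s.1 * w s.2)) := by
    intro x R hx hw2
    have hx' : R.1.1 = fun i => (x i : Ω) := funext hx
    have hw' : R.1.2 = fun i => (w i : Ω) := funext hw2
    refine ⟨⟨L, inferInstance, x, w, ?_, hw, fun j => ?_, hgw⟩, rfl, ?_, fun u => rfl⟩
    · intro h
      apply R.2.1
      rw [hx', h]
      rfl
    · apply (algebraMap L Ω).injective
      rw [map_zero]
      refine Eq.trans ?_ (R.2.2.2.1 j)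
      rw [← MvPolynomial.aeval_algebraMap_apply, hx', hw']
      congr 2
      funext i
      cases i <;> rfl
    · have h1 : (FPt₂.mk L inferInstance x w (by
          intro h
          apply R.2.1
          rw [hx', h]
          rfl) hw (by
          intro j
          apply (algebraMap L Ω).injective
          rw [map_zero]
          refine Eq.trans ?_ (R.2.2.2.1 j)
          rw [← MvPolynomial.aeval_algebraMap_apply, hx', hw']
          congr 2
          funext i
          cases i <;> rfl) hgw : FPt₂ Ω f g).pt = R := by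
        apply Subtype.ext
        exact Prod.ext hx'.symm hw'.symm
      unfold FPt₂.cyc
      rw [h1]
  obtain ⟨P₁, hP₁L, hP₁, hP₁c⟩ := hpt (fun i => (γ i).coeff 0) P hP hP'
  obtain ⟨Q₁, hQ₁L, hQ₁, hQ₁c⟩ := hpt (fun i => (γ i).coeff r) Q hQ hQ'
  let x : ι → RatFunc L := fun i => algebraMap L[X] (RatFunc L) (repar r (γ i))
  let wE : τ → RatFunc L := fun i => algebraMap L[X] (RatFunc L) (C (w i))
  have hcst : (algebraMap (RatFunc K) (RatFunc L)).comp RatFunc.C
      = (algebraMap L[X] (RatFunc L)).comp ((C : L →+* L[X]).comp (algebraMap K L)) :=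
    RingHom.ext fun c => ext_const K L c
  have hspec : ∀ (a : K) (y : ι → L), (∀ i, (repar r (γ i)).eval (algebraMap K L a) = y i) →
      Special a (fun s : ι × τ => x s.1 * wE s.2)
        (fun u => Algebra.norm K (∑ s : ι × τ, u s • (y s.1 * w s.2))) := by
    intro a y hy
    refine ⟨1, one_ne_zero, fun u => ?_⟩
    rw [one_mul]
    unfold chow
    have h1 : ∑ s : ι × τ, RatFunc.C (u s) • (x s.1 * wE s.2) = algebraMap L[X] (RatFunc L)
        (∑ s : ι × τ, C (algebraMap K L (u s)) * (repar r (γ s.1) * C (w s.2))) := by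
      rw [map_sum]
      refine Finset.sum_congr rfl fun s _ => ?_
      rw [map_mul, map_mul, Algebra.smul_def, ext_const K L]
    have h2 : Algebra.norm K (∑ s : ι × τ, u s • (y s.1 * w s.2))
        = (Algebra.norm K[X] (∑ s : ι × τ, C (algebraMap K L (u s)) *
          (repar r (γ s.1) * C (w s.2)))).eval a := by
      rw [norm_eval, eval_finsetSum]
      congr 1
      refine Finset.sum_congr rfl fun s _ => ?_
      rw [eval_mul, eval_mul, eval_C, eval_C, hy, Algebra.smul_def]
    rw [h1, ext_norm]
    show Val a _ (Algebra.norm K (∑ s : ι × τ, u s • (y s.1 * w s.2)))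
    rw [h2]
    exact Val.poly _
  refine ⟨RatFunc L, inferInstance, inferInstance, x, wE, [P₁], [Q₁], ext_finite K L, ?_, ?_,
    fun j => ?_, fun k => ?_, ?_, ?_, ?_⟩
  · intro h
    apply P.2.1
    funext i
    have h1 : repar r (γ i) = 0 := by
      apply RatFunc.algebraMap_injective L
      rw [map_zero]
      exact congr_fun h i
    rw [hP i, ← repar_zero r (γ i), h1, eval_zero]
    rfl
  · intro h
    apply hw
    funext i
    have h1 : C (w i) = 0 := by
      apply RatFunc.algebraMap_injective L
      rw [map_zero]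
      exact congr_fun h i
    exact C_eq_zero.1 h1
  · obtain ⟨a, b, hab⟩ := hbi j
    let ψ : L[X] →+* RatFunc L :=
      (aeval (algebraMap L[X] (RatFunc L) X / algebraMap L[X] (RatFunc L) (1 - X)) :
        L[X] →ₐ[L] RatFunc L)
    have h1 := hab.scale ((algebraMap (RatFunc K) (RatFunc L)).comp RatFunc.C)
      (algebraMap L[X] (RatFunc L) (1 - X) ^ r) 1 (fun i => ψ (γ i)) wE
    have h2 : MvPolynomial.eval₂ ((algebraMap (RatFunc K) (RatFunc L)).comp RatFunc.C)
        (Sum.elim (fun i => ψ (γ i)) wE) (f j) = 0 := by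
      have h3 := congrArg ψ (hγ j)
      rw [map_zero, MvPolynomial.hom_eval₂] at h3
      rw [← h3]
      congr 1
      · rw [hcst]
        refine RingHom.ext fun c => ?_
        show _ = aeval _ (C (algebraMap K L c))
        rw [aeval_C]
        rfl
      · funext i
        rcases i with i | i
        · rfl
        · show _ = aeval _ (C (w i))
          rw [aeval_C]
          rfl
    rw [h2, mul_zero] at h1
    rw [← h1]
    congr 1
    funext i
    rcases i with i | i
    · exact repar_eq r (γ i) (hr i)
    · show _ = 1 * wE i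
      rw [one_mul]
      rfl
  · have h1 := congrArg ((algebraMap L[X] (RatFunc L)).comp C) (hgw k)
    rw [map_zero, MvPolynomial.aeval_def, MvPolynomial.hom_eval₂] at h1
    rw [← h1, hcst]
    rfl
  · have h1 := hspec 0 (fun i => (γ i).coeff 0) (fun i => by rw [map_zero]; exact repar_zero r _)
    have h2 : (fun u : ι × τ → K => ([P₁].map fun P => chow K P.seg u).prod)
        = fun u => Algebra.norm K (∑ s : ι × τ, u s • ((γ s.1).coeff 0 * w s.2)) := by
      funext u
      rw [List.map_singleton, List.prod_singleton, hP₁c]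
    rw [h2]
    exact h1
  · have h1 := hspec 1 (fun i => (γ i).coeff r) (fun i => by rw [map_one]; exact repar_one r _)
    have h2 : (fun u : ι × τ → K => ([Q₁].map fun P => chow K P.seg u).prod)
        = fun u => Algebra.norm K (∑ s : ι × τ, u s • ((γ s.1).coeff r * w s.2)) := by
      funext u
      rw [List.map_singleton, List.prod_singleton, hQ₁c]
    rw [h2]
    exact h1
  · rw [List.map_singleton, List.sum_singleton, List.map_singleton, List.sum_singleton, hP₁, hQ₁]

end Pool.Agent.Run7.h652.FB
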