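import Mathlib
import Pool.Agent.Run7.h652.LP.Glob
import Pool.Agent.Run7.h652.ZC.Emb
import Pool.Agent.Run7.h652.ZC.Curve

/-!
The theorem of Tsen and Lang at a prime `ℓ` for function fields of curves.
-/

set_option autoImplicit false
set_option linter.style.haveILetI false

namespace Pool.Agent.Run7.h652.FB

open Module Polynomial
open Pool.Agent.Q49.TL (Tsen)
open Pool.Agent.R614.PT (PrimeTo)
open Pool.Agent.Run7.h652.LP (LC lc_root lc_sub exists_closure tsen_step wh_map)
open Pool.Agent.Run7.h652.ZC (Gd phi embed)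

/-- The property `Gd` for all the finite extensions. -/
def GG (ℓ : ℕ) (K : Type) [Field K] : Prop :=
  ∀ (K' : Type) [Field K'] [Algebra K K'] [FiniteDimensional K K'], Gd ℓ K'

theorem tsen_of_gd {ℓ : ℕ} {K N : Type} [Field K] [Field N] [Algebra K N]
    [Algebra.IsAlgebraic K N] (hG : GG ℓ K) (hN : LC ℓ N) :
    Tsen (fun d => d * ℓ ^ d.factorization ℓ) N := by
  classical
  intro ι κ _ _ w e f hw he hf hlt
  let S : Finset N := Finset.univ.biUnion fun j => (f j).support.image fun s => (f j).coeff s
  let K' : IntermediateField K N := IntermediateField.adjoin K (S : Set N)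
  haveI : FiniteDimensional K K' := by
    have := S.finite_toSet.to_subtype
    exact IntermediateField.finiteDimensional_adjoin fun x _ => Algebra.IsIntegral.isIntegral x
  have hex : ∀ (j : κ) (s : ι →₀ ℕ), ∃ c : K', (c : N) = (f j).coeff s := by
    intro j s
    by_cases hs : s ∈ (f j).support
    · refine ⟨⟨(f j).coeff s, IntermediateField.subset_adjoin _ _ ?_⟩, rfl⟩
      exact Finset.mem_coe.2 (Finset.mem_biUnion.2 ⟨j, Finset.mem_univ j,
        Finset.mem_image_of_mem _ hs⟩)
    · exact ⟨0, (MvPolynomial.notMem_support_iff.1 hs).symm⟩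
  choose c hc using hex
  let f' : κ → MvPolynomial ι K' := fun j =>
    ∑ s ∈ (f j).support, MvPolynomial.monomial s (c j s)
  have hf' : ∀ j, MvPolynomial.map (algebraMap K' N) (f' j) = f j := by
    intro j
    show MvPolynomial.map (algebraMap K' N) (∑ s ∈ (f j).support, _) = _
    rw [map_sum]
    conv_rhs => rw [(f j).as_sum]
    refine Finset.sum_congr rfl fun s _ => ?_
    rw [MvPolynomial.map_monomial]
    congr 1
    exact hc j s
  have hwh : ∀ j, MvPolynomial.IsWeightedHomogeneous w (f' j) (e j) := by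
    intro j
    refine MvPolynomial.IsWeightedHomogeneous.sum _ _ _ fun s hs => ?_
    exact MvPolynomial.isWeightedHomogeneous_monomial w s (c j s)
      (hf j (MvPolynomial.mem_support_iff.1 hs))
  obtain ⟨L, i1, i2, hfin, hdeg, x, hx, hxf⟩ := hG K' ι κ w e f' hw he hwh hlt
  obtain ⟨φ⟩ := embed (finrank K' L) K' L N (fun g hg => lc_root hN g hg) rfl hdeg
  refine ⟨fun i => φ (x i), ?_, fun j => ?_⟩
  · intro h
    apply hx
    funext i
    apply φ.toRingHom.injective
    have := congr_fun h i
    show φ (x i) = φ 0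
    rw [map_zero]
    exact this
  · rw [← hf' j, MvPolynomial.eval_map, ← MvPolynomial.aeval_def,
      ← MvPolynomial.comp_aeval_apply, hxf j, map_zero]

theorem tsen_three {ℓ : ℕ} {K E M : Type} [Field K] [Field E] [Field M]
    [Algebra (RatFunc K) E] [Algebra.IsAlgebraic (RatFunc K) E] [Algebra E M]
    [Algebra.IsAlgebraic E M] (hG : GG ℓ K) (hM : LC ℓ M) :
    Tsen (fun d => d * (d * ℓ ^ d.factorization ℓ)) M := by
  classical
  let φ : RatFunc K →+* M := (algebraMap E M).comp (algebraMap (RatFunc K) E)
  let a1 : Algebra (RatFunc K) M := φ.toAlgebra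
  have t1 : IsScalarTower (RatFunc K) E M := IsScalarTower.of_algebraMap_eq fun _ => rfl
  have hRM : Algebra.IsAlgebraic (RatFunc K) M := Algebra.IsAlgebraic.trans (RatFunc K) E M
  let a2 : Algebra K M := (φ.comp (algebraMap K (RatFunc K))).toAlgebra
  have t2 : IsScalarTower K (RatFunc K) M := IsScalarTower.of_algebraMap_eq fun _ => rfl
  let N := algebraicClosure K M
  have hN : LC ℓ N := by
    refine lc_sub (M := M) (fun z hz => ?_) hM
    have h1 : z ∈ algebraicClosure K M := by
      rw [mem_algebraicClosure_iff']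
      have h2 : IsAlgebraic K z := by
        have : Algebra.IsAlgebraic K N := inferInstance
        exact IsAlgebraic.restrictScalars K hz
      exact h2.isIntegral
    exact ⟨⟨z, h1⟩, rfl⟩
  have hTN := tsen_of_gd (K := K) (N := N) hG hN
  let t : M := φ (algebraMap K[X] (RatFunc K) X)
  have htF : Transcendental K t := by
    have h1 : Transcendental K (algebraMap K[X] (RatFunc K) (X : K[X])) := by
      rw [transcendental_iff_injective]
      intro P Q hPQ
      have h2 : ∀ R : K[X], aeval (algebraMap K[X] (RatFunc K) X) R = algebraMap K[X] (RatFunc K) R := by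
        intro R
        rw [aeval_algebraMap_apply, aeval_X_left_apply]
      rw [h2, h2] at hPQ
      exact IsFractionRing.injective K[X] (RatFunc K) hPQ
    have h3 := (transcendental_algebraMap_iff (R := K) (S := RatFunc K) (A := M)
      (algebraMap (RatFunc K) M).injective (a := algebraMap K[X] (RatFunc K) (X : K[X]))).2 h1
    exact h3
  have htN : Transcendental N t := by
    intro h
    exact htF (IsAlgebraic.restrictScalars K h)
  refine tsen_step htN (fun z => ?_) hTN
  obtain ⟨P, hP0, hP⟩ := Algebra.IsAlgebraic.isAlgebraic (R := RatFunc K) z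
  have hmem : ∀ r : RatFunc K, φ r ∈ IntermediateField.adjoin N {t} := by
    have h1 : ∀ R : K[X], φ (algebraMap K[X] (RatFunc K) R) ∈ IntermediateField.adjoin N {t} := by
      intro R
      have h2 : φ (algebraMap K[X] (RatFunc K) R) = aeval t R := by
        have h3 : algebraMap K[X] (RatFunc K) R
            = aeval (algebraMap K[X] (RatFunc K) (X : K[X])) R := by
          rw [aeval_algebraMap_apply, aeval_X_left_apply]
        rw [h3]
        show algebraMap (RatFunc K) M _ = _
        rw [← aeval_algebraMap_apply]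
        rfl
      rw [h2, aeval_eq_sum_range]
      refine sum_mem fun i _ => ?_
      rw [Algebra.smul_def]
      refine mul_mem ?_ (pow_mem (IntermediateField.mem_adjoin_simple_self N t) i)
      have h4 : algebraMap K M (R.coeff i) = algebraMap N M (algebraMap K N (R.coeff i)) := rfl
      rw [h4]
      exact (IntermediateField.adjoin N {t}).algebraMap_mem _
    intro r
    obtain ⟨A, B, hB, rfl⟩ := IsFractionRing.div_surjective (A := K[X]) r
    rw [map_div₀]
    exact div_mem (h1 A) (h1 B)
  let ψ : RatFunc K →+* IntermediateField.adjoin N {t} :=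
    φ.codRestrict (IntermediateField.adjoin N {t}).toSubfield.toSubring hmem
  refine ⟨P.map ψ, ?_, ?_⟩
  · rwa [Ne, Polynomial.map_eq_zero]
  · rw [aeval_def, eval₂_map]
    exact hP

/-- Points of degree prime to `ℓ` over finite extensions of `K(t)`. -/
theorem exists_lift {ℓ : ℕ} (hℓ : ℓ.Prime) {K : Type} [Field K] (hG : GG ℓ K) (E : Type) [Field E]
    [Algebra (RatFunc K) E] [FiniteDimensional (RatFunc K) E] {ι κ : Type} [Fintype ι] [Fintype κ]
    (a : κ → ℕ) (ha : ∀ j, 0 < a j) (F : κ → MvPolynomial ι E)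
    (hF : ∀ j, (F j).IsHomogeneous (a j)) (hlt : ∑ j, a j * phi ℓ (a j) < Fintype.card ι) :
    ∃ (E' : Type) (_ : Field E') (_ : Algebra E E'), FiniteDimensional E E' ∧
      ¬ ℓ ∣ finrank E E' ∧ ∃ x : ι → E', x ≠ 0 ∧ ∀ j, MvPolynomial.aeval x (F j) = 0 := by
  classical
  obtain ⟨M, hM1, hM2⟩ := exists_closure E hℓ
  obtain ⟨x, hx, hxf⟩ := tsen_three (K := K) (E := E) (M := M) hG hM2 ι κ (fun _ => 1) a
    (fun j => MvPolynomial.map (algebraMap E M) (F j)) (fun _ => one_pos) ha
    (fun j => (hF j).map _) (by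
      refine lt_of_lt_of_le hlt ?_
      simp)
  let S : Set (AlgebraicClosure E) := Set.range fun i => (x i : AlgebraicClosure E)
  have hS : S.Finite := Set.finite_range _
  have hSM : S ⊆ M := by
    rintro _ ⟨i, rfl⟩
    exact (x i).2
  obtain ⟨L, hLM, hfin, hSL⟩ := Pool.Agent.R614.PT.exists_finite_le S hS hSM
  refine ⟨L, inferInstance, inferInstance, hfin, hM1 L hLM hfin, fun i => ⟨x i, hSL ⟨i, rfl⟩⟩,
    ?_, fun j => ?_⟩
  · intro h0
    apply hx
    funext i
    apply Subtype.ext
    exact congr_arg (fun z : L => (z : AlgebraicClosure E)) (congr_fun h0 i)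
  · have h1 := hxf j
    rw [MvPolynomial.eval_map, ← MvPolynomial.aeval_def] at h1
    apply Subtype.ext
    have h2 : ((MvPolynomial.aeval x (F j) : M) : AlgebraicClosure E) = 0 := by
      rw [h1]; rfl
    have h3 : ((MvPolynomial.aeval x (F j) : M) : AlgebraicClosure E)
        = MvPolynomial.aeval (fun i => (x i : AlgebraicClosure E)) (F j) :=
      (MvPolynomial.aeval_algebraMap_apply (AlgebraicClosure E) x (F j)).symm
    have h4 : ((MvPolynomial.aeval (fun i => (⟨x i, hSL ⟨i, rfl⟩⟩ : L)) (F j) : L) :
        AlgebraicClosure E) = MvPolynomial.aeval (fun i => (x i : AlgebraicClosure E)) (F j) :=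
      (MvPolynomial.aeval_algebraMap_apply (AlgebraicClosure E)
        (fun i => (⟨x i, hSL ⟨i, rfl⟩⟩ : L)) (F j)).symm
    rw [h4, ← h3, h2]
    rfl

end Pool.Agent.Run7.h652.FB
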