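import Mathlib
import Pool.Agent.Run7.h652.FB.Rc
import Pool.Agent.Run7.h652.FB.T3

/-!
Lifting rational equivalences.
-/

set_option autoImplicit false
set_option linter.style.haveILetI false

namespace Pool.Agent.Run7.h652.FB

open MvPolynomial Module
open Pool.Agent.Run7.h652.ZC (Pt Conj ClosedPt Cyc push resField conjSetoid Gd phi)

section special

variable {K E σ : Type} [Field K] [Field E] [Algebra (RatFunc K) E] [Fintype σ]

theorem Special.unique {a : K} {s : σ → E} {Φ Φ' : (σ → K) → K} (h : Special a s Φ)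
    (h' : Special a s Φ') (u : σ → K) (hu : Φ u ≠ 0) (hu' : Φ' u ≠ 0) :
    ∃ ρ : K, ρ ≠ 0 ∧ ∀ v, Φ' v = ρ * Φ v := by
  obtain ⟨g₁, hg₁, h₁⟩ := h
  obtain ⟨g₂, hg₂, h₂⟩ := h'
  have h3 := (h₁ u).ne_zero hu
  have h4 : chow (RatFunc K) s (fun i => RatFunc.C (u i)) ≠ 0 := right_ne_zero_of_mul h3
  refine ⟨Φ' u * (Φ u)⁻¹, mul_ne_zero hu' (inv_ne_zero hu), fun v => ?_⟩
  have h5 : Val a (g₂ / g₁) (Φ' u * (Φ u)⁻¹) := by
    have h6 := (h₂ u).mul ((h₁ u).inv hu)
    have h7 : g₂ * chow (RatFunc K) s (fun i => RatFunc.C (u i)) *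
        (g₁ * chow (RatFunc K) s (fun i => RatFunc.C (u i)))⁻¹ = g₂ / g₁ := by
      field_simp
    rwa [h7] at h6
  have h6 := h5.mul (h₁ v)
  have h7 : g₂ / g₁ * (g₁ * chow (RatFunc K) s (fun i => RatFunc.C (v i)))
      = g₂ * chow (RatFunc K) s (fun i => RatFunc.C (v i)) := by
    field_simp
  rw [h7] at h6
  exact (h₂ v).unique h6

theorem Special.ext {E' : Type} [Field E'] [Algebra (RatFunc K) E'] [Algebra E E']
    [IsScalarTower (RatFunc K) E E'] {a : K} {s : σ → E} {Φ : (σ → K) → K} (h : Special a s Φ) :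
    Special a (fun i => algebraMap E E' (s i)) fun u => Φ u ^ finrank E E' := by
  obtain ⟨g, hg, h⟩ := h
  refine ⟨g ^ finrank E E', pow_ne_zero _ hg, fun u => ?_⟩
  have h1 : chow (RatFunc K) (fun i => algebraMap E E' (s i)) (fun i => RatFunc.C (u i))
      = chow (RatFunc K) s (fun i => RatFunc.C (u i)) ^ finrank E E' := by
    unfold chow
    rw [← map_pow, ← Algebra.norm_algebraMap, Algebra.norm_norm]
    congr 1
    rw [map_sum]
    refine Finset.sum_congr rfl fun i _ => ?_
    rw [Algebra.smul_def, Algebra.smul_def, map_mul, ← IsScalarTower.algebraMap_apply]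
  rw [h1, ← mul_pow]
  exact (h u).pow _

end special

section fib

variable {K A ι τ : Type} [Field K] [CommRing A]

/-- the polynomial `f(·, w)` -/
noncomputable def fib (φ : K →+* A) (w : τ → A) (f : MvPolynomial (ι ⊕ τ) K) : MvPolynomial ι A :=
  eval₂ ((C : A →+* MvPolynomial ι A).comp φ) (Sum.elim X fun i => C (w i)) f

theorem fib_hom (φ : K →+* A) (w : τ → A) {f : MvPolynomial (ι ⊕ τ) K} {a b : ℕ}
    (hf : BiHom f a b) : (fib φ w f).IsHomogeneous a := by
  unfold fib
  rw [eval₂_eq]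
  refine IsHomogeneous.sum _ _ _ fun s hs => ?_
  have h1 := hf.1 (mem_support_iff.1 hs)
  rw [Finsupp.weight_apply, Finsupp.sum] at h1
  have h2 : (∏ i ∈ s.support, (Sum.elim X (fun i => C (w i)) : ι ⊕ τ → MvPolynomial ι A) i ^ s i
      ).IsHomogeneous (∑ i ∈ s.support, s i • (Sum.elim (fun _ => 1) fun _ => 0 : ι ⊕ τ → ℕ) i) := by
    refine IsHomogeneous.prod _ _ _ fun i _ => ?_
    rcases i with i | i
    · have h3 := (isHomogeneous_X A i).pow (s (Sum.inl i))
      simpa [mul_comm] using h3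
    · have h3 := (isHomogeneous_C ι (w i)).pow (s (Sum.inr i))
      simpa using h3
  rw [h1] at h2
  have h3 := (isHomogeneous_C ι (φ (f.coeff s))).mul h2
  rw [zero_add] at h3
  exact h3

theorem fib_aeval {B : Type} [CommRing B] [Algebra A B] (φ : K →+* A) (w : τ → A)
    (f : MvPolynomial (ι ⊕ τ) K) (x : ι → B) :
    aeval x (fib φ w f)
      = eval₂ ((algebraMap A B).comp φ) (Sum.elim x fun i => algebraMap A B (w i)) f := by
  unfold fib
  have h1 := hom_eval₂ f ((C : A →+* MvPolynomial ι A).comp φ) ((aeval x : MvPolynomial ι A →ₐ[A] B) :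
    MvPolynomial ι A →+* B) (Sum.elim X fun i => C (w i))
  refine h1.trans ?_
  congr 1
  · ext c
    exact aeval_C x (φ c)
  · funext i
    rcases i with i | i
    · exact aeval_X x i
    · exact aeval_C x (w i)

end fib

variable {K Ω ι τ κ μ : Type} [Field K] [Field Ω] [Algebra K Ω]
  {f : κ → MvPolynomial (ι ⊕ τ) K} {g : μ → MvPolynomial τ K}

theorem proj_single (P : ClosedPt₂ Ω f g) (n : ℤ) : proj (Finsupp.single P n) = n • P.proj := by
  unfold proj
  rw [Finsupp.liftAddHom_apply_single]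
  rfl

theorem finrank_pos_of_le [Algebra.IsAlgebraic K Ω] {F L : IntermediateField K Ω} (h : F ≤ L)
    [FiniteDimensional K L] : 0 < finrank K F := by
  have : FiniteDimensional K F := by
    have h1 : F.toSubalgebra.toSubmodule ≤ L.toSubalgebra.toSubmodule := h
    exact Submodule.finiteDimensional_of_le h1
  exact finrank_pos

theorem proj_push₂ [Algebra.IsAlgebraic K Ω] (L : IntermediateField K Ω) [FiniteDimensional K L]
    (p : Pt₂ Ω f g) (h1 : ∀ i, p.1.1 i ∈ L) (h2 : ∀ i, p.1.2 i ∈ L) :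
    proj (push₂ L p) = push L p.snd := by
  have hres : p.res ≤ L := sup_le (ZC.resField_le h1) (ZC.resField_le h2)
  have hres2 : resField K p.1.2 ≤ p.res := le_sup_right
  obtain ⟨m, hm⟩ := ZC.finrank_dvd hres
  obtain ⟨n, hn⟩ := ZC.finrank_dvd hres2
  have h3 := finrank_pos_of_le hres
  have h4 := finrank_pos_of_le (hres2.trans hres)
  have h5 : finrank K L / finrank K p.res = m := by rw [hm, Nat.mul_div_cancel_left _ h3]
  have h6 : finrank K p.res / finrank K (resField K p.1.2) = n := by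
    rw [hn, Nat.mul_div_cancel_left _ h4]
  have h7 : finrank K L / finrank K (resField K p.1.2) = n * m := by
    rw [hm, hn, mul_assoc, Nat.mul_div_cancel_left _ h4]
  unfold push₂
  rw [proj_single]
  show _ • push p.res p.snd = _
  have h6' : finrank K p.res / finrank K (resField K p.snd.1) = n := h6
  have h7' : finrank K L / finrank K (resField K p.snd.1) = n * m := h7
  rw [ZC.push_def, ZC.push_def, Finsupp.smul_single, h5, h6', h7']
  congr 1
  push_cast
  ring

theorem FPt₂.proj_cyc [Algebra.IsAlgebraic K Ω] (P : FPt₂ Ω f g) : proj P.cyc = P.toW.cyc := by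
  have := P.fin
  exact proj_push₂ P.L P.pt (fun i => SetLike.coe_mem _) fun i => SetLike.coe_mem _

theorem exists_nonzero [Infinite K] [Fintype τ] (l : List (FPt Ω g)) :
    ∃ u : τ → K, ∀ P ∈ l, chow K P.w u ≠ 0 := by
  classical
  obtain ⟨u, hu⟩ := avoid (K := K) {v : τ → Ω | ∃ P ∈ l, v = P.pt.1}
    ((l.map fun P => P.pt.1).toFinset.finite_toSet.subset (by
      rintro _ ⟨P, hP, rfl⟩
      rw [Finset.mem_coe, List.mem_toFinset]
      exact List.mem_map.2 ⟨P, hP, rfl⟩)) (by
      rintro _ ⟨P, -, rfl⟩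
      exact P.pt.2.1)
  refine ⟨u, fun P hP h => ?_⟩
  have := P.fin
  unfold chow at h
  rw [Algebra.norm_eq_zero_iff] at h
  apply hu _ ⟨P, hP, rfl⟩
  have h1 := P.lam_coe u
  have h2 : P.lam u = 0 := h
  rw [h2] at h1
  exact h1.symm

/-- Comparison of the fibres of a curve in `V × ℙ¹` and of its image. -/
theorem cyc_of_special [Infinite K] [IsAlgClosed Ω] [Algebra.IsAlgebraic K Ω] [Fintype τ]
    {E : Type} [Field E] [Algebra (RatFunc K) E] {a : K} {s : τ → E} (l m : List (FPt Ω g)) (e : ℕ)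
    (h : Special a s fun u => (l.map fun P => chow K P.w u).prod)
    (h' : Special a s fun u => (m.map fun P => chow K P.w u).prod ^ e) :
    (l.map FPt.cyc).sum = e • (m.map FPt.cyc).sum := by
  obtain ⟨u, hu⟩ := exists_nonzero (l ++ m)
  have hne : ∀ l' : List (FPt Ω g), (∀ P ∈ l', P ∈ l ++ m) →
      (l'.map fun P => chow K P.w u).prod ≠ 0 := by
    intro l' hl' h0
    rw [List.prod_eq_zero_iff] at h0
    obtain ⟨P, hP, hP2⟩ := List.mem_map.1 h0
    exact hu P (hl' P hP) hP2
  obtain ⟨ρ, hρ, h1⟩ := h'.unique h u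
    (pow_ne_zero _ (hne m fun P hP => List.mem_append_right _ hP))
    (hne l fun P hP => List.mem_append_left _ hP)
  have h2 : ∀ (n : ℕ) (v : τ → K), (((List.replicate n m).flatten).map fun P => chow K P.w v).prod
      = (m.map fun P => chow K P.w v).prod ^ n := by
    intro n v
    induction n with
    | zero => simp
    | succ n ih =>
      rw [List.replicate_succ, List.flatten_cons, List.map_append, List.prod_append, ih, pow_succ,
        mul_comm]
  have h3 : ∀ n : ℕ, (((List.replicate n m).flatten).map FPt.cyc).sum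
      = n • (m.map FPt.cyc).sum := by
    intro n
    induction n with
    | zero => simp
    | succ n ih =>
      rw [List.replicate_succ, List.flatten_cons, List.map_append, List.sum_append, ih, succ_nsmul,
        add_comm]
  rw [← h3]
  refine cyc_eq_of_chow l _ ρ hρ fun v => ?_
  rw [h2]
  exact h1 v

theorem proj_list [Algebra.IsAlgebraic K Ω] (l : List (FPt₂ Ω f g)) :
    proj (l.map FPt₂.cyc).sum = ((l.map FPt₂.toW).map FPt.cyc).sum := by
  induction l with
  | nil => simp
  | cons P l ih =>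
    rw [List.map_cons, List.sum_cons, map_add, ih, P.proj_cyc, List.map_cons, List.map_cons,
      List.sum_cons]

/-- Lifting of the fibres of a curve. -/
theorem lift_fibres {ℓ : ℕ} (hℓ : ℓ.Prime) [Infinite K] [IsAlgClosed Ω] [Algebra.IsAlgebraic K Ω]
    [Fintype ι] [Fintype τ] [Fintype κ] (hG : GG ℓ K) {a b : κ → ℕ} (ha : ∀ j, 0 < a j)
    (hf : ∀ j, BiHom (f j) (a j) (b j)) (hg : ∀ k, ∃ d, (g k).IsHomogeneous d)
    (hlt : ∑ j, a j * phi ℓ (a j) < Fintype.card ι) (z : Cyc Ω g) (hz : Fibres z) :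
    ∃ (e : ℕ) (z' : Cyc₂ Ω f g), ¬ ℓ ∣ e ∧ Fibres₂ z' ∧ proj z' = e • z := by
  obtain ⟨E, i1, i2, s, l, m, hfin, hs, hsg, h0, h1, rfl⟩ := hz
  let κE : K →+* E := (algebraMap (RatFunc K) E).comp RatFunc.C
  obtain ⟨E', j1, j2, hfin', hdeg, x, hx, hxf⟩ := exists_lift hℓ hG E a ha
    (fun j => fib κE s (f j)) (fun j => fib_hom κE s (hf j)) hlt
  letI : Algebra (RatFunc K) E' := ((algebraMap E E').comp (algebraMap (RatFunc K) E)).toAlgebra
  haveI : IsScalarTower (RatFunc K) E E' := IsScalarTower.of_algebraMap_eq fun _ => rfl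
  haveI : FiniteDimensional (RatFunc K) E' := FiniteDimensional.trans (RatFunc K) E E'
  let w : τ → E' := fun i => algebraMap E E' (s i)
  have hw : w ≠ 0 := by
    intro h
    apply hs
    funext i
    exact (map_eq_zero (algebraMap E E')).1 (congr_fun h i)
  have hcomp : (algebraMap (RatFunc K) E').comp RatFunc.C = (algebraMap E E').comp κE := rfl
  have hxw : ∀ j, eval₂ ((algebraMap (RatFunc K) E').comp RatFunc.C) (Sum.elim x w) (f j) = 0 := by
    intro j
    rw [← hxf j, fib_aeval, hcomp]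
  have hwg : ∀ k, eval₂ ((algebraMap (RatFunc K) E').comp RatFunc.C) w (g k) = 0 := by
    intro k
    have h2 := congrArg (algebraMap E E') (hsg k)
    rw [map_zero, hom_eval₂] at h2
    rw [← h2, hcomp]
  have hsp : ∀ c : K, _ := fun c => exists_special (Ω := Ω) (f := f) (g := g)
    (fun j => ⟨a j, b j, hf j⟩) hg c x w hx hw hxw hwg
  obtain ⟨l₀, hl₀, hl₀'⟩ := hsp 0
  obtain ⟨l₁, hl₁, hl₁'⟩ := hsp 1
  refine ⟨finrank E E', (l₀.map FPt₂.cyc).sum - (l₁.map FPt₂.cyc).sum, hdeg,
    ⟨E', j1, inferInstance, x, w, l₀, l₁, inferInstance, hx, hw, hxw, hwg, hl₀, hl₁, rfl⟩, ?_⟩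
  have h2 : ∀ (c : K) (l l' : List _), Special c w
      (fun u => ((l : List (FPt₂ Ω f g)).map fun P => chow K P.w u).prod) →
      Special c s (fun u => ((l' : List (FPt Ω g)).map fun P => chow K P.w u).prod) →
      proj (l.map FPt₂.cyc).sum = finrank E E' • (l'.map FPt.cyc).sum := by
    intro c l l' h3 h4
    rw [proj_list]
    refine cyc_of_special (s := w) (a := c) _ _ _ ?_ (Special.ext h4)
    have h5 : (fun u : τ → K => ((l.map FPt₂.toW).map fun P => chow K P.w u).prod)
        = fun u => (l.map fun P => chow K P.w u).prod := by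
      funext u
      rw [List.map_map]
      rfl
    rw [h5]
    exact h3
  rw [map_sub, smul_sub, h2 0 l₀ l hl₀' h0, h2 1 l₁ m hl₁' h1]

end Pool.Agent.Run7.h652.FB
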