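import Mathlib
import Pool.Agent.Run7.h652.FB.Lift
import Pool.Agent.Run7.h652.ZC.Main

/-!
Zero-cycles in the fibres.
-/

set_option autoImplicit false
set_option linter.style.haveILetI false

namespace Pool.Agent.Run7.h652.FB

open MvPolynomial Module
open Pool.Agent.Run7.h652.ZC (Pt Conj ClosedPt Cyc push resField conjSetoid Gd phi RatEq Elementary)

variable {K Ω ι τ κ μ : Type} [Field K] [Field Ω] [Algebra K Ω]
  {f : κ → MvPolynomial (ι ⊕ τ) K} {g : μ → MvPolynomial τ K}

section inc

variable (w : Pt Ω g) (hw : ∀ i, w.1 i ∈ resField K w.1)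

/-- the coordinates in the residue field -/
def wF (i : τ) : resField K w.1 := ⟨w.1 i, hw i⟩

/-- the equations of the fibre -/
noncomputable def fw (f : κ → MvPolynomial (ι ⊕ τ) K) (j : κ) : MvPolynomial ι (resField K w.1) :=
  fib (algebraMap K (resField K w.1)) (wF w hw) (f j)

theorem fw_aeval (j : κ) (x : ι → Ω) :
    aeval x (fw w hw f j) = aeval (Sum.elim x w.1) (f j) := by
  unfold fw
  rw [fib_aeval, ← IsScalarTower.algebraMap_eq, aeval_def]
  rfl

/-- the inclusion of the fibre -/
noncomputable def inc (x : Pt Ω (fw w hw f)) : Pt₂ Ω f g :=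
  ⟨(x.1, w.1), x.2.1, w.2.1, fun j => by rw [← fw_aeval w hw]; exact x.2.2 j, w.2.2⟩

/-- the inclusion on closed points -/
noncomputable def incC : ClosedPt Ω (fw w hw f) → ClosedPt₂ Ω f g :=
  Quotient.lift (fun x => cl₂ (inc w hw x)) fun x y h => by
    obtain ⟨σ, c, hc, h⟩ := h
    have h1 : Conj₂ (inc w hw x) (inc w hw y) := by
      refine ⟨σ.restrictScalars K, c, 1, hc, one_ne_zero, h, fun i => ?_⟩
      rw [one_mul]
      exact (σ.commutes (wF w hw i)).symm
    exact Quotient.sound (s := conj₂Setoid Ω f g) h1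

/-- the inclusion on zero-cycles -/
noncomputable def incZ : Cyc Ω (fw w hw f) →+ Cyc₂ Ω f g := Finsupp.mapDomain.addMonoidHom (incC w hw)

theorem incZ_single (Q : ClosedPt Ω (fw w hw f)) (n : ℤ) :
    incZ w hw (Finsupp.single Q n) = Finsupp.single (incC w hw Q) n :=
  Finsupp.mapDomain_single

theorem res_inc (x : Pt Ω (fw w hw f)) :
    (inc w hw x).res = (resField (resField K w.1) x.1).restrictScalars K := by
  apply le_antisymm
  · refine sup_le ?_ ?_
    · unfold resField
      rw [IntermediateField.adjoin_le_iff]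
      exact IntermediateField.subset_adjoin _ _
    · intro z hz
      exact (resField (resField K w.1) x.1).algebraMap_mem ⟨z, hz⟩
  · have h1 : resField K w.1 ≤ (inc w hw x).res := le_sup_right
    have h2 : resField (resField K w.1) x.1 ≤ IntermediateField.extendScalars h1 := by
      unfold resField
      rw [IntermediateField.adjoin_le_iff]
      intro z hz
      show z ∈ (inc w hw x).res
      exact (le_sup_left : resField K x.1 ≤ _) (IntermediateField.subset_adjoin _ _ hz)
    exact h2

theorem incZ_push [Finite τ] [Algebra.IsAlgebraic K Ω]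
    (L : IntermediateField (resField K w.1) Ω) (x : Pt Ω (fw w hw f)) :
    incZ w hw (push L x) = push₂ (L.restrictScalars K) (inc w hw x) := by
  rw [ZC.push_def, incZ_single]
  unfold push₂
  rw [res_inc]
  have h1 : finrank K (L.restrictScalars K) = finrank K (resField K w.1) * finrank (resField K w.1) L :=
    (finrank_mul_finrank K (resField K w.1) L).symm
  have h2 : finrank K ((resField (resField K w.1) x.1).restrictScalars K)
      = finrank K (resField K w.1) * finrank (resField K w.1) (resField (resField K w.1) x.1) :=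
    (finrank_mul_finrank K (resField K w.1) (resField (resField K w.1) x.1)).symm
  rw [h1, h2, Nat.mul_div_mul_left _ _ finrank_pos]
  rfl

theorem elem_inc [Fintype ι] [Fintype τ] [Algebra.IsAlgebraic K Ω]
    (hbi : ∀ j, ∃ a b, BiHom (f j) a b) (z : Cyc Ω (fw w hw f)) (hz : Elementary z) :
    Fibres₂ (incZ w hw z) := by
  obtain ⟨L, γ, r, x, y, hfin, hγ, hr, hx, hy, rfl⟩ := hz
  rw [map_sub, incZ_push, incZ_push]
  let T : L →+* (L.restrictScalars K : IntermediateField K Ω) :=
    { toFun := fun z => ⟨z.1, z.2⟩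
      map_one' := rfl
      map_mul' := fun _ _ => rfl
      map_zero' := rfl
      map_add' := fun _ _ => rfl }
  haveI : FiniteDimensional K (L.restrictScalars K) := FiniteDimensional.trans K (resField K w.1) L
  refine fibres_of_curve hbi (L.restrictScalars K) (fun i => (γ i).map T) r
    (fun i => T (algebraMap (resField K w.1) L (wF w hw i))) (fun j => ?_)
    (fun i => Polynomial.natDegree_map_le.trans (hr i)) _ _ (fun i => ?_) (fun i => rfl)
    (fun i => ?_) (fun i => rfl)
  · have h1 := hγ j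
    unfold fw at h1
    rw [fib_aeval] at h1
    have h2 := congrArg (Polynomial.mapRingHom T) h1
    rw [map_zero, hom_eval₂] at h2
    rw [← h2]
    congr 1
    · refine RingHom.ext fun c => ?_
      show Polynomial.C (algebraMap K (L.restrictScalars K) c)
        = Polynomial.map T (algebraMap (resField K w.1) (Polynomial L) (algebraMap K (resField K w.1) c))
      rw [Polynomial.algebraMap_apply, Polynomial.map_C]
      rfl
    · funext i
      rcases i with i | i
      · rfl
      · show _ = Polynomial.map T (algebraMap (resField K w.1) (Polynomial L) (wF w hw i))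
        rw [Polynomial.algebraMap_apply, Polynomial.map_C]
        rfl
  · rw [Polynomial.coeff_map]
    exact hx i
  · rw [Polynomial.coeff_map]
    exact hy i

theorem rat_inc [Fintype ι] [Fintype τ] [Algebra.IsAlgebraic K Ω]
    (hbi : ∀ j, ∃ a b, BiHom (f j) a b) (z : Cyc Ω (fw w hw f))
    (hz : z ∈ RatEq Ω (fw w hw f)) : incZ w hw z ∈ RatV Ω f g := by
  have h1 : RatEq Ω (fw w hw f) ≤ (RatV Ω f g).comap (incZ w hw) := by
    unfold RatEq
    rw [AddSubgroup.closure_le]
    intro y hy
    exact AddSubgroup.subset_closure (elem_inc w hw hbi y hy)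
  exact h1 hz

end inc

/-- the closed point of `W` under a closed point of `V` -/
def ClosedPt₂.over : ClosedPt₂ Ω f g → ClosedPt Ω g :=
  Quotient.lift (fun p => ZC.cl p.snd) fun p q h => by
    obtain ⟨σ, c, d, hc, hd, h, h'⟩ := h
    have h1 : Conj g p.snd q.snd := ⟨σ, d, hd, h'⟩
    exact Quotient.sound (s := conjSetoid Ω g) h1

theorem exists_inc [Finite ι] [Finite τ] [Algebra.IsAlgebraic K Ω] {a b : κ → ℕ}
    (hf : ∀ j, BiHom (f j) (a j) (b j)) (w : Pt Ω g) (hw : ∀ i, w.1 i ∈ resField K w.1)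
    (P : ClosedPt₂ Ω f g) (hP : P.over = ZC.cl w) :
    ∃ (L : IntermediateField (resField K w.1) Ω) (x : Pt Ω (fw w hw f)),
      FiniteDimensional (resField K w.1) L ∧ (∀ i, x.1 i ∈ L) ∧
      incZ w hw (push L x) = Finsupp.single P 1 ∧
      P.proj = Finsupp.single (ZC.cl w) (finrank (resField K w.1) L : ℤ) := by
  obtain ⟨p, rfl⟩ : ∃ p, cl₂ p = P := Quotient.exists_rep P
  obtain ⟨σ, c, hc, hσ⟩ := Quotient.exact (s := conjSetoid Ω g) hP
  have hσ' : ∀ i, w.1 i = c * σ (p.1.2 i) := hσ
  let x : Pt Ω (fw w hw f) := ⟨fun i => σ (p.1.1 i), by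
    intro h
    apply p.2.1
    funext i
    apply σ.injective
    have := congr_fun h i
    show σ (p.1.1 i) = σ 0
    rw [map_zero]
    exact this, fun j => by
      refine (fw_aeval w hw j _).trans ?_
      have h1 := (hf j).scale (algebraMap K Ω) (1 : Ω) c (fun i => σ (p.1.1 i))
        (fun i => σ (p.1.2 i))
      have h2 : eval₂ (algebraMap K Ω) (Sum.elim (fun i => σ (p.1.1 i)) fun i => σ (p.1.2 i)) (f j)
          = 0 := by
        have h3 := congrArg σ (p.2.2.2.1 j)
        rw [map_zero] at h3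
        have h4 := (comp_aeval_apply (f := Sum.elim p.1.1 p.1.2) (σ : Ω →ₐ[K] Ω) (f j))
        refine Eq.trans ?_ (h4.symm.trans h3)
        rw [aeval_def]
        congr 1
        funext i
        cases i <;> rfl
      rw [h2, mul_zero] at h1
      refine Eq.trans ?_ h1
      rw [aeval_def]
      congr 1
      funext i
      rcases i with i | i
      · show _ = 1 * σ (p.1.1 i)
        rw [one_mul]
        rfl
      · exact hσ' i⟩
  obtain ⟨L, y, hfin, hy, hL⟩ := ZC.exists_push (K := resField K w.1) (f := fw w hw f)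
    (fun j => ⟨a j, fib_hom _ _ (hf j)⟩) (ZC.cl x)
  have h1 : incZ w hw (push L y) = Finsupp.single (cl₂ p) 1 := by
    rw [← hL, incZ_single]
    congr 1
    symm
    have h2 : Conj₂ p (inc w hw x) :=
      ⟨σ, 1, c, one_ne_zero, hc, fun i => by rw [one_mul]; rfl, fun i => hσ' i⟩
    exact Quotient.sound (s := conj₂Setoid Ω f g) h2
  refine ⟨L, y, hfin, hy, h1, ?_⟩
  haveI : FiniteDimensional K (L.restrictScalars K) := FiniteDimensional.trans K (resField K w.1) L
  have h2 : proj (Finsupp.single (cl₂ p) (1 : ℤ)) = ClosedPt₂.proj (cl₂ p) := by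
    rw [proj_single, one_smul]
  rw [← h2, ← h1, incZ_push, proj_push₂ _ _ (fun i => hy i) fun i => by
    exact L.algebraMap_mem (wF w hw i)]
  rw [ZC.push_def]
  have h3 : finrank K (L.restrictScalars K) = finrank K (resField K w.1) * finrank (resField K w.1) L :=
    (finrank_mul_finrank K (resField K w.1) L).symm
  have h4 : (inc w hw y).snd.1 = w.1 := rfl
  rw [h3, h4, Nat.mul_div_cancel_left _ finrank_pos]
  rfl

theorem fibre_key {ℓ : ℕ} (hℓ : ℓ.Prime) [IsAlgClosed Ω] [Algebra.IsAlgebraic K Ω]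
    [Fintype ι] [Fintype τ] [Fintype κ] (hG : GG ℓ K) {a b : κ → ℕ} (ha : ∀ j, 0 < a j)
    (hf : ∀ j, BiHom (f j) (a j) (b j))
    (h0 : ∑ j, phi ℓ (a j) < Fintype.card ι) {m : ℕ}
    (hm : ∑ j, (ZC.S ℓ (a j * m) + ZC.S ℓ ((a j - 1) * m)) < Fintype.card ι * ZC.S ℓ m)
    (w : Pt Ω g) (hw : ∀ i, w.1 i ∈ resField K w.1) :
    ∃ (ζ : Cyc₂ Ω f g) (e : ℕ), ¬ ℓ ∣ e ∧ proj ζ = Finsupp.single (ZC.cl w) (e : ℤ) ∧
      ∀ P : ClosedPt₂ Ω f g, P.over = ZC.cl w → ∃ n : ℕ,
        P.proj = Finsupp.single (ZC.cl w) (n : ℤ) ∧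
        ∃ M : ℕ, ¬ ℓ ∣ M ∧ M • (e • Finsupp.single P 1 - n • ζ) ∈ RatV Ω f g := by
  have hbi : ∀ j, ∃ a b, BiHom (f j) a b := fun j => ⟨a j, b j, hf j⟩
  have hfw : ∀ j, (fw w hw f j).IsHomogeneous (a j) := fun j => fib_hom _ _ (hf j)
  have hG0 : Gd ℓ (resField K w.1) := hG (resField K w.1)
  have hGL : ∀ L : IntermediateField (resField K w.1) Ω, FiniteDimensional (resField K w.1) L →
      Gd ℓ L := by
    intro L _
    haveI : FiniteDimensional K L := FiniteDimensional.trans K (resField K w.1) L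
    exact hG L
  haveI : Algebra.IsAlgebraic (resField K w.1) Ω := Algebra.IsAlgebraic.tower_top (K := K) _
  obtain ⟨L₀, x₀, hfin₀, hdeg₀, hx₀⟩ := ZC.exists_base (Ω := Ω) hfw ha h0 hG0
  refine ⟨incZ w hw (push L₀ x₀), finrank (resField K w.1) L₀, hdeg₀, ?_, fun P hP => ?_⟩
  · haveI : FiniteDimensional K (L₀.restrictScalars K) :=
      FiniteDimensional.trans K (resField K w.1) L₀
    rw [incZ_push, proj_push₂ _ _ (fun i => hx₀ i) fun i => by
      exact L₀.algebraMap_mem (wF w hw i)]
    rw [ZC.push_def]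
    have h3 : finrank K (L₀.restrictScalars K)
        = finrank K (resField K w.1) * finrank (resField K w.1) L₀ :=
      (finrank_mul_finrank K (resField K w.1) L₀).symm
    have h4 : (inc w hw x₀).snd.1 = w.1 := rfl
    rw [h3, h4, Nat.mul_div_cancel_left _ finrank_pos]
    rfl
  · obtain ⟨L, x, hfin, hx, h1, h2⟩ := exists_inc hf w hw P hP
    refine ⟨finrank (resField K w.1) L, h2, ?_⟩
    obtain ⟨M, hM, hM2⟩ := ZC.compare hℓ hfw hGL hm L₀ hdeg₀ x₀ hx₀ L x hx
    refine ⟨M, hM, ?_⟩
    have h3 := rat_inc w hw hbi _ hM2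
    rw [map_nsmul, map_sub, map_nsmul, map_nsmul, h1] at h3
    exact h3

end Pool.Agent.Run7.h652.FB
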