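import Mathlib
import Pool.Agent.Run7.h652.FB.Lift

/-!
The push-forward of a zero-cycle of `V` which is rationally equivalent to zero.
-/

set_option autoImplicit false
set_option linter.style.haveILetI false

namespace Pool.Agent.Run7.h652.FB

open MvPolynomial Module IntermediateField
open Pool.Agent.Run7.h652.ZC (Pt Conj ClosedPt Cyc push resField conjSetoid)

variable {K Ω ι τ κ μ : Type} [Field K] [Field Ω] [Algebra K Ω]
  {f : κ → MvPolynomial (ι ⊕ τ) K} {g : μ → MvPolynomial τ K}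

/-- no equations -/
noncomputable def noEq (K ι τ : Type) [Field K] (k : Empty) : MvPolynomial (ι × τ) K := k.elim

theorem seg_ne {A : Type} [Field A] {x : ι → A} {w : τ → A} (hx : x ≠ 0) (hw : w ≠ 0) :
    (fun s : ι × τ => x s.1 * w s.2) ≠ 0 := by
  obtain ⟨i, hi⟩ := Function.ne_iff.1 hx
  obtain ⟨j, hj⟩ := Function.ne_iff.1 hw
  intro h
  exact mul_ne_zero hi hj (congr_fun h (i, j))

/-- the Segre embedding on points -/
noncomputable def segP (p : Pt₂ Ω f g) : Pt Ω (noEq K ι τ) :=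
  ⟨fun s => p.1.1 s.1 * p.1.2 s.2, seg_ne p.2.1 p.2.2.1, fun k => k.elim⟩

/-- the Segre embedding on closed points -/
noncomputable def segC : ClosedPt₂ Ω f g → ClosedPt Ω (noEq K ι τ) :=
  Quotient.lift (fun p => ZC.cl (segP p)) fun p q h => by
    obtain ⟨σ, c, d, hc, hd, h, h'⟩ := h
    have h1 : Conj (noEq K ι τ) (segP p) (segP q) := ⟨σ, c * d, mul_ne_zero hc hd, fun s => by
      show q.1.1 s.1 * q.1.2 s.2 = c * d * σ (p.1.1 s.1 * p.1.2 s.2)
      rw [h, h', map_mul]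
      ring⟩
    exact Quotient.sound (s := conjSetoid Ω (noEq K ι τ)) h1

theorem segC_inj : Function.Injective (segC (Ω := Ω) (f := f) (g := g)) := by
  intro P Q h
  obtain ⟨p, rfl⟩ : ∃ p, cl₂ p = P := Quotient.exists_rep P
  obtain ⟨q, rfl⟩ : ∃ q, cl₂ q = Q := Quotient.exists_rep Q
  obtain ⟨σ, c, hc, hσ⟩ := Quotient.exact (s := conjSetoid Ω (noEq K ι τ)) h
  have hσ' : ∀ i j, q.1.1 i * q.1.2 j = c * (σ (p.1.1 i) * σ (p.1.2 j)) := by
    intro i j
    rw [← map_mul]
    exact hσ (i, j)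
  obtain ⟨i, hi⟩ := Function.ne_iff.1 p.2.1
  obtain ⟨j, hj⟩ := Function.ne_iff.1 p.2.2.1
  have hi' : σ (p.1.1 i) ≠ 0 := by
    rw [Ne, EmbeddingLike.map_eq_zero_iff]
    exact hi
  have hj' : σ (p.1.2 j) ≠ 0 := by
    rw [Ne, EmbeddingLike.map_eq_zero_iff]
    exact hj
  have h2 : q.1.1 i * q.1.2 j ≠ 0 := by
    rw [hσ' i j]
    exact mul_ne_zero hc (mul_ne_zero hi' hj')
  have h3 : q.1.1 i ≠ 0 := left_ne_zero_of_mul h2
  have h4 : q.1.2 j ≠ 0 := right_ne_zero_of_mul h2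
  have h5 : Conj₂ p q := by
    refine ⟨σ, c * σ (p.1.2 j) / q.1.2 j, c * σ (p.1.1 i) / q.1.1 i,
      div_ne_zero (mul_ne_zero hc hj') h4, div_ne_zero (mul_ne_zero hc hi') h3,
      fun i' => ?_, fun j' => ?_⟩
    · have h6 := hσ' i' j
      field_simp
      rw [h6]
      ring
    · have h6 := hσ' i j'
      field_simp
      rw [mul_comm, h6]
      ring
  exact Quotient.sound (s := conj₂Setoid Ω f g) h5

theorem res_seg (p : Pt₂ Ω f g) : resField K (segP p).1 = p.res := by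
  obtain ⟨i, hi⟩ := Function.ne_iff.1 p.2.1
  obtain ⟨j, hj⟩ := Function.ne_iff.1 p.2.2.1
  have hi' : p.1.1 i ≠ 0 := hi
  have hj' : p.1.2 j ≠ 0 := hj
  apply le_antisymm
  · refine adjoin_le_iff.2 ?_
    rintro _ ⟨s, t, rfl⟩
    show p.1.1 s.1 * p.1.2 s.2 / (p.1.1 t.1 * p.1.2 t.2) ∈ p.res
    rw [mul_div_mul_comm]
    exact mul_mem
      ((le_sup_left : resField K p.1.1 ≤ p.res) (subset_adjoin _ _ ⟨s.1, t.1, rfl⟩))
      ((le_sup_right : resField K p.1.2 ≤ p.res) (subset_adjoin _ _ ⟨s.2, t.2, rfl⟩))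
  · refine sup_le ?_ ?_
    · refine adjoin_le_iff.2 ?_
      rintro _ ⟨s, t, rfl⟩
      have h1 : p.1.1 s / p.1.1 t = (p.1.1 s * p.1.2 j) / (p.1.1 t * p.1.2 j) :=
        (mul_div_mul_right _ _ hj').symm
      rw [h1]
      exact subset_adjoin _ _ ⟨(s, j), (t, j), rfl⟩
    · refine adjoin_le_iff.2 ?_
      rintro _ ⟨s, t, rfl⟩
      have h1 : p.1.2 s / p.1.2 t = (p.1.1 i * p.1.2 s) / (p.1.1 i * p.1.2 t) :=
        (mul_div_mul_left _ _ hi').symm
      rw [h1]
      exact subset_adjoin _ _ ⟨(i, s), (i, t), rfl⟩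

/-- the Segre embedding on zero-cycles -/
noncomputable def segZ : Cyc₂ Ω f g →+ Cyc Ω (noEq K ι τ) := Finsupp.mapDomain.addMonoidHom segC

theorem segZ_inj : Function.Injective (segZ (Ω := Ω) (f := f) (g := g)) :=
  Finsupp.mapDomain_injective segC_inj

/-- the image of a point in the Segre embedding -/
noncomputable def FPt₂.toS (P : FPt₂ Ω f g) : FPt Ω (noEq K ι τ) :=
  ⟨P.L, P.fin, P.seg, seg_ne P.ne P.ne', fun k => k.elim⟩

theorem segZ_cyc (P : FPt₂ Ω f g) : segZ P.cyc = P.toS.cyc := by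
  have h1 : segP P.pt = P.toS.pt := Subtype.ext (funext fun s => rfl)
  have h2 : segZ P.cyc = Finsupp.single (segC (cl₂ P.pt))
      ((finrank K P.L / finrank K P.pt.res : ℕ) : ℤ) := Finsupp.mapDomain_single
  rw [h2, ← res_seg, h1]
  have h3 : segC (cl₂ P.pt) = ZC.cl (segP P.pt) := rfl
  rw [h3, h1]
  rfl

theorem segZ_list (l : List (FPt₂ Ω f g)) :
    segZ (l.map FPt₂.cyc).sum = ((l.map FPt₂.toS).map FPt.cyc).sum := by
  induction l with
  | nil => simp
  | cons P l ih =>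
    rw [List.map_cons, List.sum_cons, map_add, ih, segZ_cyc, List.map_cons, List.map_cons,
      List.sum_cons]

/-- Effective zero-cycles of `V` are determined by their Chow forms. -/
theorem cyc₂_eq_of_special [Infinite K] [IsAlgClosed Ω] [Algebra.IsAlgebraic K Ω]
    [Fintype ι] [Fintype τ] {E : Type} [Field E] [Algebra (RatFunc K) E] {a : K} {s : ι × τ → E}
    (l m : List (FPt₂ Ω f g))
    (h : Special a s fun u => (l.map fun P => chow K P.seg u).prod)
    (h' : Special a s fun u => (m.map fun P => chow K P.seg u).prod) :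
    (l.map FPt₂.cyc).sum = (m.map FPt₂.cyc).sum := by
  apply segZ_inj
  rw [segZ_list, segZ_list, ← one_smul ℕ ((m.map FPt₂.toS).map FPt.cyc).sum]
  refine cyc_of_special (s := s) (a := a) _ _ _ ?_ ?_
  · have h5 : (fun u : ι × τ → K => ((l.map FPt₂.toS).map fun P => chow K P.w u).prod)
        = fun u => (l.map fun P => chow K P.seg u).prod := by
      funext u
      rw [List.map_map]
      rfl
    rw [h5]
    exact h
  · have h5 : (fun u : ι × τ → K => ((m.map FPt₂.toS).map fun P => chow K P.w u).prod ^ 1)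
        = fun u => (m.map fun P => chow K P.seg u).prod := by
      funext u
      rw [List.map_map, pow_one]
      rfl
    rw [h5]
    exact h'

theorem proj_fibres [Infinite K] [IsAlgClosed Ω] [Algebra.IsAlgebraic K Ω]
    [Fintype ι] [Fintype τ]
    (hf : ∀ j, ∃ a b, BiHom (f j) a b) (hg : ∀ k, ∃ d, (g k).IsHomogeneous d)
    (z : Cyc₂ Ω f g) (hz : Fibres₂ z) : Fibres (proj z) := by
  obtain ⟨E, i1, i2, x, w, l, m, hfin, hx, hw, hxw, hwg, h0, h1, rfl⟩ := hz
  obtain ⟨l₀, hl₀, hl₀'⟩ := exists_special (Ω := Ω) (f := f) (g := g) hf hg 0 x w hx hw hxw hwg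
  obtain ⟨l₁, hl₁, hl₁'⟩ := exists_special (Ω := Ω) (f := f) (g := g) hf hg 1 x w hx hw hxw hwg
  rw [cyc₂_eq_of_special l l₀ h0 hl₀, cyc₂_eq_of_special m l₁ h1 hl₁, map_sub, proj_list,
    proj_list]
  refine ⟨E, i1, i2, w, l₀.map FPt₂.toW, l₁.map FPt₂.toW, hfin, hw, hwg, ?_, ?_, rfl⟩
  · have h5 : (fun u : τ → K => ((l₀.map FPt₂.toW).map fun P => chow K P.w u).prod)
        = fun u => (l₀.map fun P => chow K P.w u).prod := by
      funext u
      rw [List.map_map]
      rfl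
    rw [h5]
    exact hl₀'
  · have h5 : (fun u : τ → K => ((l₁.map FPt₂.toW).map fun P => chow K P.w u).prod)
        = fun u => (l₁.map fun P => chow K P.w u).prod := by
      funext u
      rw [List.map_map]
      rfl
    rw [h5]
    exact hl₁'

/-- The push-forward maps `RatV` into `RatW`. -/
theorem proj_rat [Infinite K] [IsAlgClosed Ω] [Algebra.IsAlgebraic K Ω]
    [Fintype ι] [Fintype τ]
    (hf : ∀ j, ∃ a b, BiHom (f j) a b) (hg : ∀ k, ∃ d, (g k).IsHomogeneous d)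
    (z : Cyc₂ Ω f g) (hz : z ∈ RatV Ω f g) : proj z ∈ RatW Ω g := by
  have h1 : RatV Ω f g ≤ (RatW Ω g).comap proj := by
    unfold RatV
    rw [AddSubgroup.closure_le]
    intro y hy
    exact AddSubgroup.subset_closure (proj_fibres hf hg y hy)
  exact h1 hz

end Pool.Agent.Run7.h652.FB
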