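import Mathlib
import Pool.Agent.Run7.h652.FB.Fib
import Pool.Agent.Run7.h652.FB.Seg

/-!
Combination of the two parts.
-/

set_option autoImplicit false
set_option linter.style.haveILetI false

namespace Pool.Agent.Run7.h652.FB

open MvPolynomial Module
open Pool.Agent.Run7.h652.ZC (Pt Conj ClosedPt Cyc push resField conjSetoid Gd phi)

theorem prime_mul {ℓ : ℕ} (hℓ : ℓ.Prime) {M N : ℕ} (hM : ¬ ℓ ∣ M) (hN : ¬ ℓ ∣ N) : ¬ ℓ ∣ M * N := by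
  intro h
  rcases (hℓ.dvd_mul).1 h with h | h
  · exact hM h
  · exact hN h

/-- the elements with a multiple prime to `ℓ` in `H` -/
def locAt {ℓ : ℕ} (hℓ : ℓ.Prime) {A : Type} [AddCommGroup A] (H : AddSubgroup A) :
    AddSubgroup A where
  carrier := {z | ∃ M : ℕ, ¬ ℓ ∣ M ∧ M • z ∈ H}
  zero_mem' := ⟨1, fun h => hℓ.one_lt.ne' (Nat.dvd_one.1 h), by rw [smul_zero]; exact H.zero_mem⟩
  add_mem' := by
    rintro x y ⟨M, hM, hM2⟩ ⟨N, hN, hN2⟩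
    refine ⟨M * N, prime_mul hℓ hM hN, ?_⟩
    have h1 : (M * N) • (x + y) = N • (M • x) + M • (N • y) := by
      rw [smul_add, smul_smul, smul_smul, mul_comm N M]
    rw [h1]
    exact add_mem (nsmul_mem hM2 _) (nsmul_mem hN2 _)
  neg_mem' := by
    rintro x ⟨M, hM, hM2⟩
    refine ⟨M, hM, ?_⟩
    rw [smul_neg]
    exact neg_mem hM2

theorem mem_locAt {ℓ : ℕ} (hℓ : ℓ.Prime) {A : Type} [AddCommGroup A] (H : AddSubgroup A) (z : A) :
    z ∈ locAt hℓ H ↔ ∃ M : ℕ, ¬ ℓ ∣ M ∧ M • z ∈ H := Iff.rfl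

theorem locAt_of_smul {ℓ : ℕ} (hℓ : ℓ.Prime) {A : Type} [AddCommGroup A] (H : AddSubgroup A)
    {z : A} {e : ℕ} (he : ¬ ℓ ∣ e) (h : e • z ∈ locAt hℓ H) : z ∈ locAt hℓ H := by
  obtain ⟨M, hM, hM2⟩ := h
  refine ⟨M * e, prime_mul hℓ hM he, ?_⟩
  rwa [mul_smul]

theorem abs_ker {ℓ : ℕ} (hℓ : ℓ.Prime) {A B : Type} (H : AddSubgroup (B →₀ ℤ))
    (π : (B →₀ ℤ) →+ (A →₀ ℤ)) (ζ : A → (B →₀ ℤ)) (e : A → ℕ) (he : ∀ Q, ¬ ℓ ∣ e Q) (ov : B → A)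
    (hB : ∀ P, ∃ n : ℕ, π (Finsupp.single P 1) = Finsupp.single (ov P) (n : ℤ) ∧
      e (ov P) • Finsupp.single P 1 - n • ζ (ov P) ∈ locAt hℓ H)
    (z : B →₀ ℤ) (hz : π z = 0) : z ∈ locAt hℓ H := by
  classical
  let S : Finset A := z.support.image ov
  let E : ℕ := ∏ Q ∈ S, e Q
  have hE : ¬ ℓ ∣ E := by
    intro h
    obtain ⟨Q, -, hQ⟩ := (Prime.dvd_finsetProd_iff hℓ.prime _).1 h
    exact he Q hQ
  let Ψ : (A →₀ ℤ) →+ (B →₀ ℤ) :=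
    Finsupp.liftAddHom fun Q => zmultiplesHom _ ((E / e Q) • ζ Q)
  have hΨ : ∀ (Q : A) (n : ℤ), Ψ (Finsupp.single Q n) = n • ((E / e Q) • ζ Q) := by
    intro Q n
    show Finsupp.liftAddHom _ (Finsupp.single Q n) = _
    rw [Finsupp.liftAddHom_apply_single]
    rfl
  have hP : ∀ P ∈ z.support, E • Finsupp.single P (1 : ℤ) - Ψ (π (Finsupp.single P 1))
      ∈ locAt hℓ H := by
    intro P hP
    obtain ⟨n, h1, h2⟩ := hB P
    rw [h1, hΨ]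
    have h3 : e (ov P) ∣ E := Finset.dvd_prod_of_mem e (Finset.mem_image_of_mem ov hP)
    have h4 : E • Finsupp.single P (1 : ℤ) - (n : ℤ) • ((E / e (ov P)) • ζ (ov P))
        = (E / e (ov P)) • (e (ov P) • Finsupp.single P (1 : ℤ) - n • ζ (ov P)) := by
      rw [smul_sub, smul_smul (E / e (ov P)) (e (ov P)), Nat.div_mul_cancel h3, natCast_zsmul,
        smul_comm n]
    rw [h4]
    exact nsmul_mem h2 _
  have h1 : E • z - Ψ (π z) ∈ locAt hℓ H := by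
    have h2 : E • z - Ψ (π z) = ∑ P ∈ z.support,
        z P • (E • Finsupp.single P (1 : ℤ) - Ψ (π (Finsupp.single P 1))) := by
      have h3 : z = ∑ P ∈ z.support, z P • Finsupp.single P (1 : ℤ) := by
        conv_lhs => rw [← Finsupp.sum_single z]
        refine Finset.sum_congr rfl fun P _ => ?_
        rw [Finsupp.smul_single, smul_eq_mul, mul_one]
      have h4 : ∀ (T : (B →₀ ℤ) →+ (B →₀ ℤ)), T z
          = ∑ P ∈ z.support, z P • T (Finsupp.single P (1 : ℤ)) := by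
        intro T
        conv_lhs => rw [h3]
        rw [map_sum]
        exact Finset.sum_congr rfl fun P _ => map_zsmul T _ _
      exact h4 (nsmulAddMonoidHom E - Ψ.comp π)
    rw [h2]
    exact sum_mem fun P hP' => zsmul_mem (hP P hP') _
  rw [hz, map_zero, sub_zero] at h1
  exact locAt_of_smul hℓ H hE h1

variable {K Ω ι τ κ μ : Type} [Field K] [Field Ω] [Algebra K Ω]
  {f : κ → MvPolynomial (ι ⊕ τ) K} {g : μ → MvPolynomial τ K}

theorem exists_rep [Finite τ] [Algebra.IsAlgebraic K Ω] (hg : ∀ k, ∃ d, (g k).IsHomogeneous d)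
    (Q : ClosedPt Ω g) : ∃ w : Pt Ω g, ZC.cl w = Q ∧ ∀ i, w.1 i ∈ resField K w.1 := by
  obtain ⟨y, rfl⟩ : ∃ y, ZC.cl y = Q := Quotient.exists_rep Q
  obtain ⟨i₀, hi₀⟩ : ∃ i, y.1 i ≠ 0 := Function.ne_iff.1 y.2.1
  have hx : ∀ k, aeval (fun i => (y.1 i₀)⁻¹ * y.1 i) (g k) = 0 := by
    intro k
    obtain ⟨d, hd⟩ := hg k
    have h1 := hom_scale (algebraMap K Ω) hd (y.1 i₀)⁻¹ y.1
    have h2 : eval₂ (algebraMap K Ω) y.1 (g k) = 0 := y.2.2 k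
    rw [h2, mul_zero] at h1
    exact h1
  let x : Pt Ω g := ⟨fun i => (y.1 i₀)⁻¹ * y.1 i, by
    intro h
    have h1 := congr_fun h i₀
    simp only [Pi.zero_apply] at h1
    rw [inv_mul_cancel₀ hi₀] at h1
    exact one_ne_zero h1, hx⟩
  have hres : resField K x.1 = resField K y.1 := by
    have h1 := ZC.resField_conj (K := K) (x := y.1) (y := x.1) AlgEquiv.refl (y.1 i₀)⁻¹
      (inv_ne_zero hi₀) (fun i => rfl)
    rw [h1]
    exact IntermediateField.map_id _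
  refine ⟨x, (ZC.cl_eq AlgEquiv.refl (y.1 i₀)⁻¹ (inv_ne_zero hi₀) fun i => rfl).symm, fun i => ?_⟩
  rw [hres]
  refine IntermediateField.subset_adjoin _ _ ⟨i, i₀, ?_⟩
  show (y.1 i₀)⁻¹ * y.1 i = _
  rw [div_eq_mul_inv, mul_comm]

section prime

variable {ℓ : ℕ} (hℓ : ℓ.Prime) [Infinite K] [IsAlgClosed Ω] [Algebra.IsAlgebraic K Ω]
  [Fintype ι] [Fintype τ] [Fintype κ] (hG : GG ℓ K) {a b : κ → ℕ} (ha : ∀ j, 0 < a j)
  (hf : ∀ j, BiHom (f j) (a j) (b j)) (hg : ∀ k, ∃ d, (g k).IsHomogeneous d)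

include hℓ hG ha hf hg

theorem ker_prime (h0 : ∑ j, phi ℓ (a j) < Fintype.card ι) {m : ℕ}
    (hm : ∑ j, (ZC.S ℓ (a j * m) + ZC.S ℓ ((a j - 1) * m)) < Fintype.card ι * ZC.S ℓ m)
    (z : Cyc₂ Ω f g) (hz : proj z = 0) : z ∈ locAt hℓ (RatV Ω f g) := by
  have h1 : ∀ Q : ClosedPt Ω g, ∃ (ζ : Cyc₂ Ω f g) (e : ℕ), ¬ ℓ ∣ e ∧
      proj ζ = Finsupp.single Q (e : ℤ) ∧
      ∀ P : ClosedPt₂ Ω f g, P.over = Q → ∃ n : ℕ,
        P.proj = Finsupp.single Q (n : ℤ) ∧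
        ∃ M : ℕ, ¬ ℓ ∣ M ∧ M • (e • Finsupp.single P 1 - n • ζ) ∈ RatV Ω f g := by
    intro Q
    obtain ⟨w, rfl, hw⟩ := exists_rep hg Q
    exact fibre_key hℓ hG ha hf h0 hm w hw
  choose ζ e he hζ h2 using h1
  refine abs_ker hℓ (RatV Ω f g) proj ζ e he (fun P => P.over) (fun P => ?_) z hz
  obtain ⟨n, hn, hn2⟩ := h2 P.over P rfl
  refine ⟨n, ?_, hn2⟩
  rw [proj_single, one_smul, hn]

theorem surj_prime (h0 : ∑ j, phi ℓ (a j) < Fintype.card ι) {m : ℕ}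
    (hm : ∑ j, (ZC.S ℓ (a j * m) + ZC.S ℓ ((a j - 1) * m)) < Fintype.card ι * ZC.S ℓ m)
    (y : Cyc Ω g) : y ∈ locAt hℓ (proj : Cyc₂ Ω f g →+ Cyc Ω g).range := by
  have h1 : ∀ Q : ClosedPt Ω g, Finsupp.single Q (1 : ℤ)
      ∈ locAt hℓ (proj : Cyc₂ Ω f g →+ Cyc Ω g).range := by
    intro Q
    obtain ⟨w, rfl, hw⟩ := exists_rep hg Q
    obtain ⟨ζ, e, he, hζ, -⟩ := fibre_key (f := f) hℓ hG ha hf h0 hm w hw
    refine ⟨e, he, ζ, ?_⟩
    rw [hζ, Finsupp.smul_single, nsmul_eq_mul, mul_one]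
  have h2 : y = ∑ Q ∈ y.support, y Q • Finsupp.single Q (1 : ℤ) := by
    conv_lhs => rw [← Finsupp.sum_single y]
    refine Finset.sum_congr rfl fun P _ => ?_
    rw [Finsupp.smul_single, smul_eq_mul, mul_one]
  rw [h2]
  exact sum_mem fun Q _ => zsmul_mem (h1 Q) _

theorem lift_prime (hlt : ∑ j, a j * phi ℓ (a j) < Fintype.card ι) (y : Cyc Ω g)
    (hy : y ∈ RatW Ω g) : ∃ (e : ℕ) (r : Cyc₂ Ω f g), ¬ ℓ ∣ e ∧ r ∈ RatV Ω f g ∧ proj r = e • y := by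
  unfold RatW at hy
  induction hy using AddSubgroup.closure_induction with
  | mem z hz =>
    obtain ⟨e, z', he, hz', hp⟩ := lift_fibres hℓ hG ha hf hg hlt z hz
    exact ⟨e, z', he, AddSubgroup.subset_closure hz', hp⟩
  | zero =>
    exact ⟨1, 0, fun h => hℓ.one_lt.ne' (Nat.dvd_one.1 h), zero_mem _, by rw [map_zero, smul_zero]⟩
  | add x y _ _ hx hy =>
    obtain ⟨e, r, he, hr, hp⟩ := hx
    obtain ⟨e', r', he', hr', hp'⟩ := hy
    refine ⟨e * e', e' • r + e • r', prime_mul hℓ he he',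
      add_mem (nsmul_mem hr _) (nsmul_mem hr' _), ?_⟩
    rw [map_add, map_nsmul, map_nsmul, hp, hp', smul_smul, smul_smul, smul_add, mul_comm e' e]
  | neg x _ hx =>
    obtain ⟨e, r, he, hr, hp⟩ := hx
    exact ⟨e, -r, he, neg_mem hr, by rw [map_neg, hp, smul_neg]⟩

theorem main_prime (hlt : ∑ j, a j ^ 3 < Fintype.card ι) :
    (∀ y : Cyc Ω g, y ∈ locAt hℓ (proj : Cyc₂ Ω f g →+ Cyc Ω g).range) ∧
      ∀ z : Cyc₂ Ω f g, proj z ∈ RatW Ω g → z ∈ locAt hℓ (RatV Ω f g) := by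
  have hphi : ∀ j, phi ℓ (a j) ≤ a j ^ 2 := by
    intro j
    unfold phi
    rw [pow_two]
    exact Nat.mul_le_mul_left _ (Nat.le_of_dvd (ha j) (Nat.ordProj_dvd (a j) ℓ))
  have h23 : ∀ j, a j ^ 2 + (a j - 1) ^ 2 ≤ a j ^ 3 := by
    intro j
    obtain ⟨c, hc⟩ : ∃ c, a j = c + 1 := ⟨a j - 1, (Nat.sub_add_cancel (ha j)).symm⟩
    rw [hc, Nat.add_sub_cancel]
    nlinarith [Nat.zero_le (c ^ 3), Nat.zero_le (c ^ 2), Nat.zero_le c]
  have h0 : ∑ j, phi ℓ (a j) < Fintype.card ι := by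
    refine lt_of_le_of_lt (Finset.sum_le_sum fun j _ => ?_) hlt
    exact (hphi j).trans ((Nat.le_add_right _ _).trans (h23 j))
  have h1 : ∑ j, a j * phi ℓ (a j) < Fintype.card ι := by
    refine lt_of_le_of_lt (Finset.sum_le_sum fun j _ => ?_) hlt
    calc a j * phi ℓ (a j) ≤ a j * a j ^ 2 := Nat.mul_le_mul_left _ (hphi j)
      _ = a j ^ 3 := by ring
  have h2 : ∑ j, (a j ^ 2 + (a j - 1) ^ 2) < Fintype.card ι :=
    lt_of_le_of_lt (Finset.sum_le_sum fun j _ => h23 j) hlt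
  obtain ⟨m, _, hm⟩ := ZC.exists_degree hℓ a _ h2
  refine ⟨fun y => surj_prime hℓ hG ha hf hg h0 hm y, fun z hz => ?_⟩
  obtain ⟨e, r, he, hr, hp⟩ := lift_prime (f := f) hℓ hG ha hf hg h1 _ hz
  have h3 : proj (e • z - r) = 0 := by rw [map_sub, map_nsmul, hp, sub_self]
  have h4 := ker_prime hℓ hG ha hf hg h0 hm _ h3
  have h5 : r ∈ locAt hℓ (RatV Ω f g) :=
    ⟨1, fun h => hℓ.one_lt.ne' (Nat.dvd_one.1 h), by rw [one_smul]; exact hr⟩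
  have h6 := add_mem h4 h5
  rw [sub_add_cancel] at h6
  exact locAt_of_smul hℓ _ he h6

end prime

end Pool.Agent.Run7.h652.FB
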